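import Mathlib
import Pool.Agent.K4H33.SK.Stmt

/-! Norms of elements of a cubic field modulo primes with a single prime above. -/

set_option autoImplicit false
set_option linter.style.haveILetI false
set_option linter.unusedSectionVars false

namespace Pool.Agent.J4.H71.CB
open NumberField Module Pool.Agent.K4H33.SK Pool.Agent.K4H33.SK.Stmt

variable {K : IntermediateField ℚ Qbar} [NumberField K]

/-- The conjugate of an integer. -/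
noncomputable def cj (g : K →ₐ[ℚ] Qbar) : 𝓞 K →+* 𝓞 Qbar := RingOfIntegers.mapRingHom (g : K →+* Qbar)

lemma coe_cj (g : K →ₐ[ℚ] Qbar) (x : 𝓞 K) : ((cj g x : 𝓞 Qbar) : Qbar) = g (x : K) := rfl

lemma norm_prod (α : 𝓞 K) : ((Algebra.norm ℤ α : ℤ) : 𝓞 Qbar) = ∏ g : K →ₐ[ℚ] Qbar, cj g α := by
  apply RingOfIntegers.ext
  have h1 := Algebra.norm_eq_prod_embeddings ℚ Qbar (α : K)
  have hcoe : ((∏ g : K →ₐ[ℚ] Qbar, cj g α : 𝓞 Qbar) : Qbar) = ∏ g : K →ₐ[ℚ] Qbar, ((cj g α : 𝓞 Qbar) : Qbar) :=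
    map_prod (algebraMap (𝓞 Qbar) Qbar) _ _
  rw [hcoe]
  have h2 : ((((Algebra.norm ℤ α : ℤ) : 𝓞 Qbar)) : Qbar) = ((Algebra.norm ℤ α : ℤ) : Qbar) := by
    simp
  rw [h2]
  have h3 : ((Algebra.norm ℤ α : ℤ) : ℚ) = Algebra.norm ℚ (α : K) := Algebra.coe_norm_int α
  have h4 : (algebraMap ℚ Qbar) ((Algebra.norm ℤ α : ℤ) : ℚ) = ((Algebra.norm ℤ α : ℤ) : Qbar) := by simp
  rw [← h4, h3, h1]
  rfl

/-- the residue class of an integer of `K` modulo a prime of norm `p` -/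
lemma exists_residue {p : ℕ} (hp : p.Prime) {P : Ideal (𝓞 K)} (hP : P.IsPrime) (hpP : (p : 𝓞 K) ∈ P)
    (hN : Ideal.absNorm P = p) (α : 𝓞 K) : ∃ a : ℤ, α - (a : 𝓞 K) ∈ P := by
  haveI := Fact.mk hp
  haveI := hP
  haveI : CharP (𝓞 K ⧸ P) p := by
    refine (CharP.charP_iff_prime_eq_zero hp).2 ?_
    have : ((p : 𝓞 K) : 𝓞 K ⧸ P) = 0 := Ideal.Quotient.eq_zero_iff_mem.2 hpP
    simpa using this
  have hcard : Nat.card (𝓞 K ⧸ P) = p := by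
    rw [← hN]
    rfl
  haveI : Finite (𝓞 K ⧸ P) := Nat.finite_of_card_ne_zero (by rw [hcard]; exact hp.ne_zero)
  have hinj : Function.Injective (ZMod.castHom (dvd_refl p) (𝓞 K ⧸ P)) := (ZMod.castHom (dvd_refl p) (𝓞 K ⧸ P)).injective
  have hbij : Function.Bijective (ZMod.castHom (dvd_refl p) (𝓞 K ⧸ P)) := by
    refine (Nat.bijective_iff_injective_and_card _).2 ⟨hinj, ?_⟩
    rw [hcard, Nat.card_zmod]
  obtain ⟨z, hz⟩ := hbij.2 (Ideal.Quotient.mk P α)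
  refine ⟨(z.val : ℤ), ?_⟩
  rw [← Ideal.Quotient.eq_zero_iff_mem, map_sub, ← hz, ZMod.castHom_apply]
  rw [sub_eq_zero]
  rw [Int.cast_natCast, map_natCast, ZMod.natCast_val]

/-- the norm modulo `p` -/
lemma norm_mod (hK : finrank ℚ K = 3) {p : ℕ} (hp : p.Prime) {P : Ideal (𝓞 K)} (hP : P.IsPrime)
    (hpP : (p : 𝓞 K) ∈ P) (hone : ∀ Q : Ideal (𝓞 K), Q.IsPrime → (p : 𝓞 K) ∈ Q → Q = P)
    {α : 𝓞 K} {a : ℤ} (ha : α - (a : 𝓞 K) ∈ P) : (p : ℤ) ∣ Algebra.norm ℤ α - a ^ 3 := by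
  haveI := hP
  haveI : Algebra.IsAlgebraic K Qbar := Algebra.IsAlgebraic.tower_top (K := ℚ) K
  haveI : Algebra.IsIntegral (𝓞 K) (𝓞 Qbar) := inferInstance
  obtain ⟨⟨𝔓, h𝔓, hl⟩⟩ := Ideal.nonempty_primesOver (S := 𝓞 Qbar) P
  have hp𝔓 : (p : 𝓞 Qbar) ∈ 𝔓 := by
    have h1 : (p : 𝓞 K) ∈ 𝔓.under (𝓞 K) := by rw [← hl.over]; exact hpP
    have h2 : algebraMap (𝓞 K) (𝓞 Qbar) (p : 𝓞 K) ∈ 𝔓 := h1
    simpa using h2
  have hc : ∀ g : K →ₐ[ℚ] Qbar, cj g α - (a : 𝓞 Qbar) ∈ 𝔓 := by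
    intro g
    have h1 : (𝔓.comap (cj g)).IsPrime := inferInstance
    have h2 : (p : 𝓞 K) ∈ 𝔓.comap (cj g) := by
      rw [Ideal.mem_comap, map_natCast]
      exact hp𝔓
    have h3 := hone _ h1 h2
    have h4 : α - (a : 𝓞 K) ∈ 𝔓.comap (cj g) := by rw [h3]; exact ha
    rw [Ideal.mem_comap, map_sub, map_intCast] at h4
    exact h4
  have hcard : Fintype.card (K →ₐ[ℚ] Qbar) = 3 := by
    rw [← hK]
    exact AlgHom.card ℚ K Qbar
  have hprod : (∏ g : K →ₐ[ℚ] Qbar, cj g α) - ∏ _g : K →ₐ[ℚ] Qbar, (a : 𝓞 Qbar) ∈ 𝔓 := by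
    rw [← Ideal.Quotient.eq_zero_iff_mem, map_sub, sub_eq_zero, map_prod, map_prod]
    refine Finset.prod_congr rfl fun g _ => ?_
    rw [← sub_eq_zero, ← map_sub, Ideal.Quotient.eq_zero_iff_mem]
    exact hc g
  rw [← norm_prod, Finset.prod_const, Finset.card_univ, hcard] at hprod
  have h5 : (((Algebra.norm ℤ α - a ^ 3 : ℤ)) : 𝓞 Qbar) ∈ 𝔓 := by
    push_cast
    exact hprod
  have h6 : (𝔓.under ℤ) = Ideal.span {(p : ℤ)} := by
    have hpr : Prime (p : ℤ) := Nat.prime_iff_prime_int.1 hp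
    have hmax : (Ideal.span {(p : ℤ)}).IsMaximal :=
      PrincipalIdealRing.isMaximal_of_irreducible hpr.irreducible
    refine (hmax.eq_of_le ?_ ?_).symm
    · exact (inferInstance : (𝔓.under ℤ).IsPrime).ne_top
    · rw [Ideal.span_singleton_le_iff_mem]
      show algebraMap ℤ (𝓞 Qbar) (p : ℤ) ∈ 𝔓
      simpa using hp𝔓
  have h7 : (Algebra.norm ℤ α - a ^ 3 : ℤ) ∈ 𝔓.under ℤ := by
    show algebraMap ℤ (𝓞 Qbar) _ ∈ 𝔓
    rw [eq_intCast]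
    exact h5
  rw [h6, Ideal.mem_span_singleton] at h7
  exact h7

end Pool.Agent.J4.H71.CB
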