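import Mathlib
import Pool.Agent.J4.H71.CB.Norm

/-! Ideals with a generator congruent to one modulo `𝔣` and positive at the real place. -/

set_option autoImplicit false
set_option linter.style.haveILetI false
set_option linter.unusedSectionVars false

namespace Pool.Agent.J4.H71.CB
open NumberField Module Pool.Agent.K4H33.SK Pool.Agent.K4H33.SK.Stmt

/-- The ideal `𝔞` has a generator which is congruent to one modulo `𝔣` and positive at the real
place of `K`. -/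
def InRay (K : Sub) [NumberField K] (𝔣 𝔞 : Ideals K) : Prop :=
  ∃ α : 𝓞 K, α - 1 ∈ 𝔣 ∧
    (∀ w : Qbar →+* ℂ, (∀ x ∈ K, (w x).im = 0) → 0 < (w ((α : K) : Qbar)).re) ∧
    𝔞 = Ideal.span {α}

variable {K : Sub} [NumberField K]

/-- the embedding of `K` given by `w` -/
noncomputable def rs (K : Sub) (w : Qbar →+* ℂ) : K →ₐ[ℚ] ℂ := (w.comp (algebraMap K Qbar)).toRatAlgHom

/-- the complex conjugate of the embedding of `K` given by `w` -/
noncomputable def rc (K : Sub) (w : Qbar →+* ℂ) : K →ₐ[ℚ] ℂ :=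
  ((starRingEnd ℂ).comp (w.comp (algebraMap K Qbar))).toRatAlgHom

lemma rs_apply (w : Qbar →+* ℂ) (x : K) : rs K w x = w (x : Qbar) := rfl

lemma rc_apply (w : Qbar →+* ℂ) (x : K) : rc K w x = (starRingEnd ℂ) (w (x : Qbar)) := rfl

/-- the norm of an integer of a complex cubic field -/
lemma norm_eq (hK : finrank ℚ K = 3) {ι : Qbar →+* ℂ} (hι : ∃ x ∈ K, (ι x).im ≠ 0)
    {w : Qbar →+* ℂ} (hw : ∀ x ∈ K, (w x).im = 0) (α : 𝓞 K) :
    ((Algebra.norm ℤ α : ℤ) : ℝ) = (w ((α : K) : Qbar)).re * ‖ι ((α : K) : Qbar)‖ ^ 2 := by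
  classical
  obtain ⟨x, hx, hxi⟩ := hι
  have h1 := Algebra.norm_eq_prod_embeddings ℚ ℂ (α : K)
  have h3 : ((Algebra.norm ℤ α : ℤ) : ℚ) = Algebra.norm ℚ (α : K) := Algebra.coe_norm_int α
  have hcard : Fintype.card (K →ₐ[ℚ] ℂ) = 3 := by
    rw [← hK]
    exact AlgHom.card ℚ K ℂ
  have n12 : rs K w ≠ rs K ι := by
    intro h
    have h2 : w x = ι x := congrArg (fun e : K →ₐ[ℚ] ℂ => e ⟨x, hx⟩) h
    exact hxi (h2 ▸ hw x hx)
  have n13 : rs K w ≠ rc K ι := by
    intro h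
    have h2 : w x = (starRingEnd ℂ) (ι x) := congrArg (fun e : K →ₐ[ℚ] ℂ => e ⟨x, hx⟩) h
    have h4 := hw x hx
    rw [h2, Complex.conj_im] at h4
    exact hxi (by linarith)
  have n23 : rs K ι ≠ rc K ι := by
    intro h
    have h2 : ι x = (starRingEnd ℂ) (ι x) := congrArg (fun e : K →ₐ[ℚ] ℂ => e ⟨x, hx⟩) h
    exact hxi (Complex.conj_eq_iff_im.1 h2.symm)
  have huniv : (Finset.univ : Finset (K →ₐ[ℚ] ℂ)) = {rs K w, rs K ι, rc K ι} := by
    symm
    apply Finset.eq_univ_of_card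
    rw [hcard, Finset.card_eq_three]
    exact ⟨_, _, _, n12, n13, n23, rfl⟩
  rw [huniv, Finset.prod_insert (by simp [n12, n13]), Finset.prod_insert (by simp [n23]),
    Finset.prod_singleton, rs_apply, rs_apply, rc_apply, ← h3] at h1
  have h5 : w ((α : K) : Qbar) = (((w ((α : K) : Qbar)).re : ℝ) : ℂ) := by
    apply Complex.ext
    · simp
    · rw [hw _ (α : K).2]
      simp
  rw [Complex.mul_conj, Complex.normSq_eq_norm_sq, h5] at h1
  have h6 : (((Algebra.norm ℤ α : ℤ) : ℝ) : ℂ) =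
      (((w ((α : K) : Qbar)).re * ‖ι ((α : K) : Qbar)‖ ^ 2 : ℝ) : ℂ) := by
    rw [Complex.ofReal_mul, ← h1]
    simp
  exact_mod_cast h6

/-- a cubic field has a real place -/
lemma exists_real (hK : finrank ℚ K = 3) : ∃ w : Qbar →+* ℂ, ∀ x ∈ K, (w x).im = 0 := by
  have h1 := NumberField.InfinitePlace.card_add_two_mul_card_eq_rank K
  rw [hK] at h1
  have h2 : 0 < NumberField.InfinitePlace.nrRealPlaces K := by omega
  obtain ⟨⟨v, hv⟩⟩ : Nonempty {w : NumberField.InfinitePlace K // w.IsReal} := by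
    by_contra hne
    rw [not_nonempty_iff] at hne
    unfold NumberField.InfinitePlace.nrRealPlaces at h2
    simp at h2
  haveI : Algebra.IsAlgebraic K Qbar := Algebra.IsAlgebraic.tower_top (K := ℚ) K
  letI : Algebra K ℂ := v.embedding.toAlgebra
  refine ⟨(IsAlgClosed.lift : Qbar →ₐ[K] ℂ).toRingHom, fun x hx => ?_⟩
  have h3 : (IsAlgClosed.lift : Qbar →ₐ[K] ℂ) x = v.embedding ⟨x, hx⟩ :=
    (IsAlgClosed.lift : Qbar →ₐ[K] ℂ).commutes ⟨x, hx⟩
  have h4 := (NumberField.InfinitePlace.isReal_iff.1 hv)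
  show ((IsAlgClosed.lift : Qbar →ₐ[K] ℂ) x).im = 0
  rw [h3]
  exact Complex.conj_eq_iff_im.1 (congrArg (fun e : K →+* ℂ => e ⟨x, hx⟩) h4)

end Pool.Agent.J4.H71.CB
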