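import Mathlib
import Pool.Agent.J4.H71.CB.Ray

/-! The ray class group of a cubic field of class number one modulo a product of totally ramified
primes. -/

set_option autoImplicit false
set_option linter.style.haveILetI false
set_option linter.unusedSectionVars false

namespace Pool.Agent.J4.H71.CB
open NumberField Module Pool.Agent.K4H33.SK Pool.Agent.K4H33.SK.Stmt

/-- `f` is squarefree, all its prime factors `p` are not congruent to one modulo `3`, all primes of
`K` above them have norm `p`, and there is exactly one such prime if `p ≠ 2`. -/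
structure Tame (K : Sub) [NumberField K] (f : ℕ) : Prop where
  sqf : Squarefree f
  mod3 : ∀ p : ℕ, p.Prime → p ∣ f → p % 3 ≠ 1
  norm : ∀ p : ℕ, p.Prime → p ∣ f → ∀ P : Ideals K, P.IsPrime → (p : 𝓞 K) ∈ P → nrm K P = p
  one : ∀ p : ℕ, p.Prime → p ∣ f → p ≠ 2 → ∀ P Q : Ideals K, P.IsPrime → Q.IsPrime →
    (p : 𝓞 K) ∈ P → (p : 𝓞 K) ∈ Q → P = Q

variable {K : Sub} [NumberField K]

/-- cubes modulo `p` -/
lemma cube_one {p : ℕ} (hp : p.Prime) (h3 : p % 3 ≠ 1) {a : ℤ} (h : (p : ℤ) ∣ a ^ 3 - 1) :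
    (p : ℤ) ∣ a - 1 := by
  haveI := Fact.mk hp
  have h1 : ((a : ZMod p)) ^ 3 = 1 := by
    have h2 : (((a ^ 3 - 1 : ℤ)) : ZMod p) = 0 := (ZMod.intCast_zmod_eq_zero_iff_dvd _ p).2 (by exact_mod_cast h)
    push_cast at h2
    exact sub_eq_zero.1 h2
  have ha0 : (a : ZMod p) ≠ 0 := by
    intro h0
    rw [h0] at h1
    norm_num at h1
  have h4 : (a : ZMod p) ^ (p - 1) = 1 := ZMod.pow_card_sub_one_eq_one ha0
  have h5 : (a : ZMod p) = 1 := by
    rcases Nat.lt_or_ge p 4 with hlt | hge
    · interval_cases p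
      · exact absurd hp (by norm_num)
      · exact absurd hp (by norm_num)
      · simpa using h4
      · calc (a : ZMod 3) = a ^ 3 := by
              rw [ZMod.pow_card]
          _ = 1 := h1
    · have hmod : p % 3 = 2 := by
        have h6 : p % 3 ≠ 0 := by
          intro h7
          have h8 : 3 ∣ p := Nat.dvd_of_mod_eq_zero h7
          have h9 := (Nat.prime_dvd_prime_iff_eq Nat.prime_three hp).1 h8
          omega
        omega
      obtain ⟨m, hm⟩ : ∃ m, p - 1 = 3 * m + 1 := ⟨(p - 2) / 3, by omega⟩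
      rw [hm, pow_succ, pow_mul, h1, one_pow, one_mul] at h4
      exact h4
  have h6 : (((a - 1 : ℤ)) : ZMod p) = 0 := by
    push_cast
    rw [h5, sub_self]
  exact_mod_cast (ZMod.intCast_zmod_eq_zero_iff_dvd _ p).1 h6

/-- an integer divisible by all prime factors of a squarefree number -/
lemma dvd_of_primes {f : ℕ} (hf : Squarefree f) {x : ℤ} (h : ∀ p : ℕ, p.Prime → p ∣ f → (p : ℤ) ∣ x) :
    (f : ℤ) ∣ x := by
  rw [Int.natCast_dvd]
  have h1 := Nat.prod_primeFactors_of_squarefree hf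
  rw [← h1]
  refine Finset.prod_primes_dvd _ (fun p hp => (Nat.prime_of_mem_primeFactors hp).prime) fun p hp => ?_
  exact Int.natCast_dvd.1 (h p (Nat.prime_of_mem_primeFactors hp) (Nat.dvd_of_mem_primeFactors hp))

/-- `𝔞` is prime to the radical of `f` iff it is prime to `f` -/
lemma coprime_radical {f : ℕ} {𝔞 : Ideals K} :
    IsCoprime 𝔞 (principal K f).radical ↔ IsCoprime 𝔞 (principal K f) := by
  rw [Ideal.isCoprime_iff_sup_eq, Ideal.isCoprime_iff_sup_eq]
  constructor
  · intro h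
    by_contra hne
    obtain ⟨P, hP, hle⟩ := Ideal.exists_le_maximal _ hne
    have h1 : (principal K f).radical ≤ P := hP.isPrime.radical_le_iff.2 (le_sup_right.trans hle)
    apply hP.ne_top
    rw [← top_le_iff, ← h]
    exact sup_le (le_sup_left.trans hle) h1
  · intro h
    rw [← top_le_iff, ← h]
    exact sup_le_sup_left Ideal.le_radical _

lemma mem_radical {f : ℕ} {x : 𝓞 K} (h : ∀ p : ℕ, p.Prime → p ∣ f → ∀ P : Ideals K, P.IsPrime →
    (p : 𝓞 K) ∈ P → x ∈ P) (hf : f ≠ 0) : x ∈ (principal K f).radical := by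
  rw [Ideal.radical_eq_sInf, Ideal.mem_sInf]
  intro P hP
  obtain ⟨hle, hPp⟩ := hP
  have h1 : (f : 𝓞 K) ∈ P := hle (Ideal.mem_span_singleton_self _)
  have h2 : ∃ p : ℕ, p.Prime ∧ p ∣ f ∧ (p : 𝓞 K) ∈ P := by
    clear hle h
    induction f using Nat.recOnMul with
    | zero => exact absurd rfl hf
    | one =>
      exact absurd (by simpa using h1) (fun h => hPp.ne_top ((Ideal.eq_top_iff_one _).2 h))
    | prime p hp => exact ⟨p, hp, dvd_rfl, h1⟩
    | mul a b iha ihb =>
      rw [Nat.cast_mul] at h1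
      rcases hPp.mem_or_mem h1 with h2 | h2
      · obtain ⟨p, hp, hpa, hpP⟩ := iha (by rintro rfl; simp at hf) h2
        exact ⟨p, hp, hpa.mul_right b, hpP⟩
      · obtain ⟨p, hp, hpa, hpP⟩ := ihb (by rintro rfl; simp at hf) h2
        exact ⟨p, hp, hpa.mul_left a, hpP⟩
  obtain ⟨p, hp, hpf, hpP⟩ := h2
  exact h p hp hpf P hPp hpP

lemma exists_above {p : ℕ} (hp : p.Prime) : ∃ P : Ideals K, P.IsPrime ∧ (p : 𝓞 K) ∈ P := by
  have h1 : (Ideal.span {(p : 𝓞 K)}) ≠ ⊤ := by
    intro h
    rw [Ideal.span_singleton_eq_top] at h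
    have h2 := Ideal.absNorm_span_natCast (S := 𝓞 K) p
    have h3 : Ideal.span {(p : 𝓞 K)} = ⊤ := Ideal.span_singleton_eq_top.2 h
    rw [h3, Ideal.absNorm_top] at h2
    have h4 : 1 < p ^ finrank ℤ (𝓞 K) := Nat.one_lt_pow (finrank_pos).ne' hp.one_lt
    omega
  obtain ⟨P, hP, hle⟩ := Ideal.exists_le_maximal _ h1
  exact ⟨P, hP.isPrime, hle (Ideal.mem_span_singleton_self _)⟩

/-- **The norm criterion.** -/
theorem inRay_iff (hK : finrank ℚ K = 3) {ι : Qbar →+* ℂ} (hι : ∃ x ∈ K, (ι x).im ≠ 0)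
    (hPID : IsPrincipalIdealRing (𝓞 K)) {f : ℕ} (hf : 2 ≤ f) (hT : Tame K f) {𝔞 : Ideals K}
    (hc : IsCoprime 𝔞 (principal K f)) :
    InRay K (principal K f).radical 𝔞 ↔ nrm K 𝔞 ≡ 1 [MOD f] := by
  obtain ⟨w0, hw0⟩ := exists_real hK
  have hcop : (nrm K 𝔞).Coprime f := (coprime_norm 𝔞).1 hc
  constructor
  · rintro ⟨α, hα, hpos, rfl⟩
    have hι0 : 0 < ‖ι ((α : K) : Qbar)‖ ^ 2 := by
      have h1 := hpos w0 hw0
      have h2 : ((α : K) : Qbar) ≠ 0 := by
        intro h0
        rw [h0] at h1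
        simp at h1
      have h3 : ι ((α : K) : Qbar) ≠ 0 := by simpa using h2
      positivity
    have hN0 : 0 < Algebra.norm ℤ α := by
      have h1 := norm_eq hK hι hw0 α
      have h2 : (0 : ℝ) < ((Algebra.norm ℤ α : ℤ) : ℝ) := by
        rw [h1]
        exact mul_pos (hpos w0 hw0) hι0
      exact_mod_cast h2
    have hN : ((nrm K (Ideal.span {α}) : ℕ) : ℤ) = Algebra.norm ℤ α := by
      show ((Ideal.absNorm (Ideal.span {α}) : ℕ) : ℤ) = _
      rw [Ideal.absNorm_span_singleton, Int.natAbs_of_nonneg hN0.le]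
    have key : (f : ℤ) ∣ Algebra.norm ℤ α - 1 := by
      refine dvd_of_primes hT.sqf fun p hp hpf => ?_
      by_cases hp2 : p = 2
      · subst hp2
        have h1 : (nrm K (Ideal.span {α})).Coprime 2 := hcop.coprime_dvd_right hpf
        have h2 : ¬ 2 ∣ nrm K (Ideal.span {α}) := fun h => by
          have := Nat.dvd_gcd h (dvd_refl 2)
          rw [h1.gcd_eq_one] at this
          omega
        rw [← hN]
        push_cast
        omega
      · obtain ⟨P, hP, hpP⟩ := exists_above (K := K) hp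
        have h1 : α - ((1 : ℤ) : 𝓞 K) ∈ P := by
          have h2 : (principal K f).radical ≤ P := by
            rw [hP.radical_le_iff]
            rw [Ideal.span_singleton_le_iff_mem]
            obtain ⟨m, rfl⟩ := hpf
            rw [Nat.cast_mul]
            exact P.mul_mem_right _ hpP
          simpa using h2 hα
        have h3 := norm_mod hK hp hP hpP (fun Q hQ hpQ => hT.one p hp hpf hp2 Q P hQ hP hpQ hpP) h1
        simpa using h3
    refine (Nat.modEq_iff_dvd.2 ?_).symm
    rw [hN]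
    exact_mod_cast key
  · intro hmod
    obtain ⟨α, hα, hN0⟩ : ∃ α : 𝓞 K, 𝔞 = Ideal.span {α} ∧ 0 < Algebra.norm ℤ α := by
      obtain ⟨α₀, hα₀⟩ := (hPID.principal 𝔞).principal
      have hα₀' : 𝔞 = Ideal.span {α₀} := hα₀
      have hne : Algebra.norm ℤ α₀ ≠ 0 := by
        intro h0
        have h1 : Ideal.absNorm 𝔞 = 0 := by rw [hα₀', Ideal.absNorm_span_singleton, h0]; rfl
        have h2 : (nrm K 𝔞).Coprime f := hcop
        rw [show nrm K 𝔞 = 0 from h1, Nat.coprime_zero_left] at h2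
        omega
      rcases lt_or_gt_of_ne hne with h1 | h1
      · refine ⟨-α₀, by rw [hα₀', Ideal.span_singleton_neg], ?_⟩
        have h2 := norm_eq hK hι hw0 α₀
        have h3 := norm_eq hK hι hw0 (-α₀)
        have h4 : (((-α₀ : 𝓞 K) : K) : Qbar) = -((α₀ : K) : Qbar) := by simp
        rw [h4, map_neg w0, map_neg ι, norm_neg, Complex.neg_re] at h3
        have h5 : ((Algebra.norm ℤ (-α₀) : ℤ) : ℝ) = -((Algebra.norm ℤ α₀ : ℤ) : ℝ) := by
          rw [h3, h2]
          ring
        have h6 : ((Algebra.norm ℤ α₀ : ℤ) : ℝ) < 0 := by exact_mod_cast h1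
        have h7 : (0 : ℝ) < ((Algebra.norm ℤ (-α₀) : ℤ) : ℝ) := by rw [h5]; linarith
        exact_mod_cast h7
      · exact ⟨α₀, hα₀', h1⟩
    have hN : ((nrm K 𝔞 : ℕ) : ℤ) = Algebra.norm ℤ α := by
      show ((Ideal.absNorm 𝔞 : ℕ) : ℤ) = _
      rw [hα, Ideal.absNorm_span_singleton, Int.natAbs_of_nonneg hN0.le]
    have hNf : (f : ℤ) ∣ Algebra.norm ℤ α - 1 := by
      have h1 := Nat.modEq_iff_dvd.1 hmod.symm
      rw [hN] at h1
      exact_mod_cast h1
    refine ⟨α, ?_, ?_, hα⟩
    · refine mem_radical (fun p hp hpf P hP hpP => ?_) (by omega)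
      obtain ⟨a, ha⟩ := exists_residue hp hP hpP (hT.norm p hp hpf P hP hpP) α
      have hint : ∀ z : ℤ, (p : ℤ) ∣ z → (z : 𝓞 K) ∈ P := by
        rintro z ⟨t, rfl⟩
        push_cast
        exact P.mul_mem_right _ hpP
      have hfin : (p : ℤ) ∣ a - 1 → α - 1 ∈ P := by
        intro h1
        have h2 := P.add_mem ha (hint _ h1)
        push_cast at h2
        have h3 : α - 1 = α - (a : 𝓞 K) + ((a : 𝓞 K) - 1) := by ring
        rw [h3]
        exact h2
      by_cases hp2 : p = 2
      · subst hp2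
        apply hfin
        have hodd : ¬ ((2 : ℕ) : ℤ) ∣ a := by
          intro h1
          have h2 : α ∈ P := by
            have := P.add_mem ha (hint _ h1)
            simpa using this
          have hfP : (f : 𝓞 K) ∈ P := by
            obtain ⟨m, rfl⟩ := hpf
            rw [Nat.cast_mul]
            exact P.mul_mem_right _ hpP
          rw [Ideal.isCoprime_iff_sup_eq] at hc
          apply hP.ne_top
          rw [← top_le_iff, ← hc]
          refine sup_le ?_ ?_
          · rw [hα, Ideal.span_singleton_le_iff_mem]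
            exact h2
          · rw [Ideal.span_singleton_le_iff_mem]
            exact hfP
        push_cast at hodd ⊢
        omega
      · apply hfin
        have h1 := norm_mod hK hp hP hpP
          (fun Q hQ hpQ => hT.one p hp hpf hp2 Q P hQ hP hpQ hpP) ha
        have h2 : (p : ℤ) ∣ Algebra.norm ℤ α - 1 := (Int.natCast_dvd_natCast.2 hpf).trans hNf
        refine cube_one hp (hT.mod3 p hp hpf) ?_
        have h3 := dvd_sub h2 h1
        have h4 : Algebra.norm ℤ α - 1 - (Algebra.norm ℤ α - a ^ 3) = a ^ 3 - 1 := by ring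
        rwa [h4] at h3
    · intro w hw
      have h1 := norm_eq hK hι hw α
      have h2 : (0 : ℝ) < ((Algebra.norm ℤ α : ℤ) : ℝ) := by exact_mod_cast hN0
      rw [h1] at h2
      exact (pos_iff_pos_of_mul_pos h2).2 (by
        rcases eq_or_ne ‖ι ((α : K) : Qbar)‖ 0 with h3 | h3
        · rw [h3] at h2
          norm_num at h2
        · positivity)

end Pool.Agent.J4.H71.CB
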