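import Mathlib
import Pool.Agent.H374R2.V.ZD

/-! Products of primes modulo which a nonsquare is a nonresidue. -/

set_option autoImplicit false
set_option linter.style.haveILetI false

namespace Pool.Agent.J4.H71.CB
open scoped NumberTheorySymbols

/-- Every residue class prime to `f` contains a product of primes modulo which `D` is not a
square. -/
theorem exists_list (D : ℤ) (hD : ¬ IsSquare D) {f : ℕ} (hf : 0 < f) {u : ℕ} (hu : u.Coprime f) :
    ∃ l : List ℕ, (∀ p ∈ l, p.Prime ∧ p.Coprime f ∧ ¬ IsSquare ((D : ℤ) : ZMod p)) ∧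
      l.prod ≡ u [MOD f] := by
  have hD0 : D ≠ 0 := by rintro rfl; exact hD ⟨0, by simp⟩
  have hDn : 0 < D.natAbs := Int.natAbs_pos.mpr hD0
  set M : ℕ := 4 * D.natAbs * f with hM
  have hM0 : 0 < M := by positivity
  haveI : NeZero M := ⟨hM0.ne'⟩
  haveI : NeZero f := ⟨hf.ne'⟩
  have hcop : ∀ {p : ℕ}, p.Prime → M < p → p.Coprime M := fun {p} hp h =>
    (Nat.Prime.coprime_iff_not_dvd hp).2 fun hd => absurd (Nat.le_of_dvd hM0 hd) (by omega)
  have hfM : f ∣ M := ⟨4 * D.natAbs, by rw [hM]; ring⟩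
  have h4M : 4 * D.natAbs ∣ M := ⟨f, rfl⟩
  -- an inert prime
  obtain ⟨M₀, c, hM₀, hcM, hc⟩ := Pool.Agent.H374R2.V.ZD.nonres_class D hD
  haveI : NeZero M₀ := ⟨hM₀.ne'⟩
  obtain ⟨p₀, hp₀M, hp₀, hp₀c⟩ := Nat.forall_exists_prime_gt_and_eq_mod
    ((ZMod.isUnit_iff_coprime c M₀).2 hcM) M
  have hns₀ : ¬ IsSquare ((D : ℤ) : ZMod p₀) :=
    hc p₀ hp₀ ((ZMod.natCast_eq_natCast_iff _ _ _).1 hp₀c)
  -- a prime in the class of `u`
  obtain ⟨q, hqM, hq, hqu⟩ := Nat.forall_exists_prime_gt_and_eq_mod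
    ((ZMod.isUnit_iff_coprime u f).2 hu) M
  have hqu' : q ≡ u [MOD f] := (ZMod.natCast_eq_natCast_iff _ _ _).1 hqu
  have hqc := hcop hq hqM
  have hpc := hcop hp₀ hp₀M
  by_cases hqs : IsSquare ((D : ℤ) : ZMod q)
  swap
  · exact ⟨[q], by simpa using ⟨hq, hqc.coprime_dvd_right hfM, hqs⟩, by simpa using hqu'⟩
  -- the second prime
  have hup : IsUnit (p₀ : ZMod M) := (ZMod.isUnit_iff_coprime p₀ M).2 hpc
  have huq : IsUnit (q : ZMod M) := (ZMod.isUnit_iff_coprime q M).2 hqc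
  obtain ⟨r, hrM, hr, hrq⟩ := Nat.forall_exists_prime_gt_and_eq_mod
    (huq.mul hup.unit⁻¹.isUnit) M
  have hpr : p₀ * r ≡ q [MOD M] := by
    rw [← ZMod.natCast_eq_natCast_iff]
    push_cast
    rw [hrq, mul_comm, mul_assoc]
    simp
  have hrc := hcop hr hrM
  have hodd : ∀ {p : ℕ}, p.Prime → M < p → Odd p := fun {p} hp h => by
    refine hp.odd_of_ne_two ?_
    rintro rfl
    have : 4 ≤ M := by
      rw [hM]
      nlinarith [Nat.mul_pos hDn hf]
    omega
  have hJ : jacobiSym D (p₀ * r) = jacobiSym D q := by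
    have h1 := jacobiSym.mod_right D (b := p₀ * r) ((hodd hp₀ hp₀M).mul (hodd hr hrM))
    have h2 := jacobiSym.mod_right D (b := q) (hodd hq hqM)
    rw [h1, h2]
    congr 1
    exact hpr.of_dvd h4M
  haveI := Fact.mk hp₀
  haveI := Fact.mk hr
  haveI := Fact.mk hq
  have hDq : ((D : ℤ) : ZMod q) ≠ 0 := by
    intro h0
    have h1 : (q : ℤ) ∣ D := (ZMod.intCast_zmod_eq_zero_iff_dvd _ q).1 h0
    have h2 : q ∣ D.natAbs := Int.natCast_dvd.1 h1
    have h3 : q ∣ M := h2.trans ⟨4 * f, by rw [hM]; ring⟩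
    have h4 := Nat.dvd_gcd (dvd_refl q) h3
    rw [hqc.gcd_eq_one] at h4
    exact hq.one_lt.ne' (Nat.dvd_one.1 h4)
  have hJq : jacobiSym D q = 1 := by
    rw [← jacobiSym.legendreSym.to_jacobiSym]
    exact (legendreSym.eq_one_iff q hDq).2 hqs
  have hJp : jacobiSym D p₀ = -1 := by
    rw [← jacobiSym.legendreSym.to_jacobiSym]
    exact (legendreSym.eq_neg_one_iff p₀).2 hns₀
  have hmul : jacobiSym D (p₀ * r) = jacobiSym D p₀ * jacobiSym D r :=
    jacobiSym.mul_right' D hp₀.ne_zero hr.ne_zero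
  have hJr : jacobiSym D r = -1 := by
    rw [hJ, hJq, hJp] at hmul
    linarith
  have hnr : ¬ IsSquare ((D : ℤ) : ZMod r) := by
    rw [← jacobiSym.legendreSym.to_jacobiSym] at hJr
    exact (legendreSym.eq_neg_one_iff r).1 hJr
  refine ⟨[p₀, r], ?_, ?_⟩
  · intro p hp
    simp only [List.mem_cons, List.not_mem_nil, or_false] at hp
    rcases hp with rfl | rfl
    · exact ⟨hp₀, hpc.coprime_dvd_right hfM, hns₀⟩
    · exact ⟨hr, hrc.coprime_dvd_right hfM, hnr⟩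
  · simp only [List.prod_cons, List.prod_nil, mul_one]
    exact (hpr.of_dvd hfM).trans hqu'

end Pool.Agent.J4.H71.CB
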