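import Mathlib
import Pool.Agent.J4.H71.CB.Crit
import Pool.Agent.J4.H48.RQ.Pair
import Pool.Agent.K4H33.SK.Stmt

/-! Ray class fields inside `K(ζ)`. -/

set_option autoImplicit false
set_option linter.style.haveILetI false
set_option linter.unusedSectionVars false

namespace Pool.Agent.J4.H71.CB
open NumberField Module IntermediateField Pool.Agent.K4H33.SK.Stmt Pool.Agent.J4.H48.RQ
open Pool.Agent.K4H33.SK (Qbar GQ Fixes fixes_iff fixes_sup agree_sup agree_iff mem_of_fixed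
  fixes_adjoin agree_adjoin comm_adjoin art_zeta norm_coprime coprime_norm Fixes.one Fixes.mul
  Fixes.inv Fixes.mono)

/-- Every ideal prime to `𝔣` whose norm is one modulo `f` has a generator which is congruent to one
modulo `𝔣` and positive at the real place. -/
def RayByNorm (K : Sub) [NumberField K] (f : ℕ) (𝔣 : Ideals K) : Prop :=
  ∀ 𝔞 : Ideals K, Cop K 𝔞 𝔣 → nrm K 𝔞 ≡ 1 [MOD f] → InRay K 𝔣 𝔞

/-- `H` is an abelian extension of `K`, and the ideals prime to `𝔣` whose Artin symbol is trivial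
on `H` are those with a generator congruent to one modulo `𝔣` and positive at the real place. -/
structure IsRay (K H : Sub) [NumberField K] (𝔣 : Ideals K) (art : Ideals K → GQ) : Prop where
  le : K ≤ H
  comm : ∀ σ τ : GQ, Fixes K σ → Fixes K τ → ∀ x ∈ H, σ (τ x) = τ (σ x)
  kernel : ∀ 𝔞 : Ideals K, Cop K 𝔞 𝔣 → ((∀ x ∈ H, art 𝔞 x = x) ↔ InRay K 𝔣 𝔞)

variable {K : Sub} [NumberField K] {𝔣 : Ideals K}

lemma InRay.one : InRay K 𝔣 1 :=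
  ⟨1, by simp, fun w _ => by simp, by simp⟩

lemma real_mul {w : Qbar →+* ℂ} (hw : ∀ x ∈ K, (w x).im = 0) (α β : 𝓞 K) :
    (w (((α * β : 𝓞 K) : K) : Qbar)).re = (w ((α : K) : Qbar)).re * (w ((β : K) : Qbar)).re := by
  have h1 : (((α * β : 𝓞 K) : K) : Qbar) = ((α : K) : Qbar) * ((β : K) : Qbar) := by simp
  rw [h1, map_mul, Complex.mul_re, hw _ (α : K).2]
  ring

lemma InRay.mul {𝔞 𝔟 : Ideals K} (ha : InRay K 𝔣 𝔞) (hb : InRay K 𝔣 𝔟) : InRay K 𝔣 (𝔞 * 𝔟) := by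
  obtain ⟨α, h1, h2, rfl⟩ := ha
  obtain ⟨β, h3, h4, rfl⟩ := hb
  refine ⟨α * β, ?_, fun w hw => ?_, Ideal.span_singleton_mul_span_singleton α β⟩
  · have e : α * β - 1 = α * (β - 1) + (α - 1) := by ring
    rw [e]
    exact 𝔣.add_mem (𝔣.mul_mem_left _ h3) h1
  · rw [real_mul hw]
    exact mul_pos (h2 w hw) (h4 w hw)

lemma InRay.pow {𝔞 : Ideals K} (ha : InRay K 𝔣 𝔞) (n : ℕ) : InRay K 𝔣 (𝔞 ^ n) := by
  induction n with
  | zero => rw [pow_zero]; exact InRay.one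
  | succ n ih => rw [pow_succ]; exact ih.mul ha

lemma InRay.quot (hK : finrank ℚ K = 3) {𝔞 𝔟 : Ideals K} (hab : InRay K 𝔣 (𝔞 * 𝔟)) (hb : InRay K 𝔣 𝔟) :
    InRay K 𝔣 𝔞 := by
  obtain ⟨γ, h1, h2, h5⟩ := hab
  obtain ⟨β, h3, h4, rfl⟩ := hb
  obtain ⟨w0, hw0⟩ := exists_real hK
  have hβ : β ≠ 0 := by
    rintro rfl
    have := h4 w0 hw0
    simp at this
  have hγ : γ ∈ 𝔞 * Ideal.span {β} := by rw [h5]; exact Ideal.mem_span_singleton_self _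
  obtain ⟨α, hα, hαβ⟩ := Ideal.mem_mul_span_singleton.1 hγ
  refine ⟨α, ?_, fun w hw => ?_, ?_⟩
  · have e : α - 1 = (γ - 1) - α * (β - 1) := by rw [← hαβ]; ring
    rw [e]
    exact 𝔣.sub_mem h1 (𝔣.mul_mem_left _ h3)
  · have h6 := h2 w hw
    rw [← hαβ, real_mul hw] at h6
    exact (pos_iff_pos_of_mul_pos h6).2 (h4 w hw)
  · have h7 : 𝔞 * Ideal.span {β} = Ideal.span {α} * Ideal.span {β} := by
      rw [h5, Ideal.span_singleton_mul_span_singleton, hαβ]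
    exact mul_right_cancel₀ (by simpa using hβ) h7

lemma cop_of_ray {𝔞 : Ideals K} (ha : InRay K 𝔣 𝔞) : IsCoprime 𝔞 𝔣 := by
  obtain ⟨α, h1, -, rfl⟩ := ha
  rw [Ideal.isCoprime_iff_exists]
  exact ⟨α, Ideal.mem_span_singleton_self _, -(α - 1), 𝔣.neg_mem h1, by ring⟩

/-- coprimality to `𝔣` and to `f` -/
lemma cop_f {f : ℕ} (hP : PrimesOver K f 𝔣) {𝔟 : Ideals K} (h : IsCoprime 𝔟 𝔣) :
    IsCoprime 𝔟 (principal K f) := by
  rw [Ideal.isCoprime_iff_sup_eq]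
  by_contra hne
  obtain ⟨P, hPm, hle⟩ := Ideal.exists_le_maximal _ hne
  have hf' : (f : 𝓞 K) ∈ P := hle ((le_sup_right : _ ≤ 𝔟 ⊔ principal K f)
    (Ideal.mem_span_singleton_self _))
  apply hPm.ne_top
  rw [Ideal.eq_top_iff_one]
  obtain ⟨i, hi, j, hj, hij⟩ := Ideal.isCoprime_iff_exists.1 h
  rw [← hij]
  exact P.add_mem (hle ((le_sup_left : 𝔟 ≤ 𝔟 ⊔ _) hi)) (hP.2 P hPm.isPrime hf' hj)

lemma cop_mul {𝔞 𝔟 : Ideals K} (h : IsCoprime 𝔞 𝔣) (h' : IsCoprime 𝔟 𝔣) : IsCoprime (𝔞 * 𝔟) 𝔣 :=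
  IsCoprime.mul_left h h'

/-- the ray class is determined by the norm modulo `f` -/
lemma RayByNorm.iff (hK : finrank ℚ K = 3) {f : ℕ} (hf : 2 ≤ f) (hP : PrimesOver K f 𝔣)
    (hR : RayByNorm K f 𝔣) {𝔞 𝔟 : Ideals K}
    (ha : Cop K 𝔞 𝔣) (hb : InRay K 𝔣 𝔟) (h : nrm K 𝔞 ≡ nrm K 𝔟 [MOD f]) : InRay K 𝔣 𝔞 := by
  have hcb := cop_of_ray hb
  have hN : (nrm K 𝔟).Coprime f := (coprime_norm 𝔟).1 (cop_f hP hcb)
  have hφ : 0 < Nat.totient f := Nat.totient_pos.2 (by omega)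
  refine InRay.quot hK (𝔟 := 𝔟 ^ (Nat.totient f - 1)) (hR _ (IsCoprime.mul_left ha hcb.pow_left) ?_)
    (hb.pow _)
  show Ideal.absNorm (𝔞 * 𝔟 ^ (Nat.totient f - 1)) ≡ 1 [MOD f]
  rw [map_mul, map_pow]
  calc nrm K 𝔞 * nrm K 𝔟 ^ (Nat.totient f - 1) ≡ nrm K 𝔟 * nrm K 𝔟 ^ (Nat.totient f - 1) [MOD f] :=
        h.mul_right _
    _ = nrm K 𝔟 ^ Nat.totient f := by
        rw [← pow_succ', Nat.sub_add_cancel hφ]
    _ ≡ 1 [MOD f] := Nat.ModEq.pow_totient hN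

/-- the cyclotomic field is normal -/
lemma normal_cyc {f : ℕ} (hf : 2 ≤ f) {ζ : Qbar} (hζ : IsPrimitiveRoot ζ f) : Normal ℚ ℚ⟮ζ⟯ := by
  haveI : NeZero f := ⟨by omega⟩
  haveI : IsCyclotomicExtension {f} ℚ ℚ⟮ζ⟯ := hζ.intermediateField_adjoin_isCyclotomicExtension ℚ
  exact (IsCyclotomicExtension.isGalois {f} ℚ ℚ⟮ζ⟯).to_normal

lemma numberField_cyc {f : ℕ} (hf : 2 ≤ f) {ζ : Qbar} (hζ : IsPrimitiveRoot ζ f) :
    NumberField ℚ⟮ζ⟯ := by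
  haveI : NeZero f := ⟨by omega⟩
  haveI : IsCyclotomicExtension {f} ℚ ℚ⟮ζ⟯ := hζ.intermediateField_adjoin_isCyclotomicExtension ℚ
  exact IsCyclotomicExtension.numberField {f} ℚ ℚ⟮ζ⟯

/-- **Natural irrationalities.** -/
lemma eq_sup {N H : Sub} [NumberField N] [Normal ℚ N] (hKH : K ≤ H) (hH : H ≤ K ⊔ N) :
    H = K ⊔ (H ⊓ N) := by
  apply le_antisymm _ (sup_le hKH inf_le_left)
  intro x hx
  apply mem_of_fixed
  intro τ hτ
  rw [fixes_sup] at hτ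
  obtain ⟨hτK, hτN⟩ := hτ
  let S : Subgroup (N ≃ₐ[ℚ] N) := H.fixingSubgroup.map (rr N)
  have h1 : rr N τ ∈ Subgroup.closure (S : Set (N ≃ₐ[ℚ] N)) := by
    refine mem_closure fun y hy => hτN y ⟨?_, y.2⟩
    apply mem_of_fixed
    intro σ hσ
    have h2 := hy (rr N σ) (Subgroup.mem_map_of_mem _ (fixes_iff.1 hσ))
    rw [← rr_apply, h2]
  rw [Subgroup.closure_eq, Subgroup.mem_map] at h1
  obtain ⟨σ, hσ, hστ⟩ := h1
  have hσ' : Fixes H σ := fixes_iff.2 hσ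
  have h3 : ∀ x ∈ K ⊔ N, τ x = σ x := by
    refine agree_sup (fun z hz => ?_) (rr_eq.1 hστ.symm)
    rw [hτK z hz, hσ' z (hKH hz)]
  rw [h3 x (hH hx), hσ' x hx]

variable {f : ℕ} {ζ : Qbar} {art : Ideals K → GQ}

lemma art_zeta' (hf : 2 ≤ f) (hζ : IsPrimitiveRoot ζ f)
    (hart : IsArtin K (K ⊔ ℚ⟮ζ⟯) (principal K f) art) {𝔞 : Ideals K}
    (h : IsCoprime 𝔞 (principal K f)) : art 𝔞 ζ = ζ ^ nrm K 𝔞 :=
  art_zeta hart.down hf hζ ((le_sup_right : ℚ⟮ζ⟯ ≤ K ⊔ ℚ⟮ζ⟯) (mem_adjoin_simple_self ℚ ζ)) le_rfl 𝔞 h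

lemma zeta_iff (hf : 2 ≤ f) (hζ : IsPrimitiveRoot ζ f)
    (hart : IsArtin K (K ⊔ ℚ⟮ζ⟯) (principal K f) art) {𝔞 𝔟 : Ideals K}
    (h : IsCoprime 𝔞 (principal K f)) (h' : IsCoprime 𝔟 (principal K f)) :
    art 𝔞 ζ = art 𝔟 ζ ↔ nrm K 𝔞 ≡ nrm K 𝔟 [MOD f] := by
  rw [art_zeta' hf hζ hart h, art_zeta' hf hζ hart h',
    (hζ.isOfFinOrder (by omega)).pow_eq_pow_iff_modEq, ← hζ.eq_orderOf]

/-- **The ray class field.** -/
theorem exists_ray (hK : finrank ℚ K = 3) (hf : 2 ≤ f) (hζ : IsPrimitiveRoot ζ f)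
    (hart : IsArtin K (K ⊔ ℚ⟮ζ⟯) (principal K f) art) (hP : PrimesOver K f 𝔣)
    (hR : RayByNorm K f 𝔣) : ∃ H : Sub, H ≤ K ⊔ ℚ⟮ζ⟯ ∧ IsRay K H 𝔣 art := by
  haveI := normal_cyc hf hζ
  haveI := numberField_cyc hf hζ
  haveI : NeZero f := ⟨by omega⟩
  let S : Set GQ := {g | ∃ 𝔟 : Ideals K, InRay K 𝔣 𝔟 ∧ g = art 𝔟}
  let k' : Sub := ℚ⟮ζ⟯ ⊓ fixedField (Subgroup.closure S)
  have hk' : k' ≤ ℚ⟮ζ⟯ := inf_le_left
  refine ⟨K ⊔ k', sup_le_sup_left hk' K, ⟨le_sup_left, fun σ τ hσ hτ x hx => ?_, fun 𝔞 hc => ⟨fun h => ?_, fun h => ?_⟩⟩⟩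
  · have h1 : ∀ x ∈ K ⊔ k', (σ * τ) x = (τ * σ) x := by
      refine agree_sup (fun z hz => ?_) (fun z hz => ?_)
      · rw [AlgEquiv.mul_apply, AlgEquiv.mul_apply, hσ z hz, hτ z hz, hσ z hz]
      · exact comm_adjoin hζ σ τ z (hk' hz)
    exact h1 x hx
  · -- an ideal whose symbol is trivial
    have h1 : rr ℚ⟮ζ⟯ (art 𝔞) ∈ Subgroup.closure (rr ℚ⟮ζ⟯ '' S) := by
      refine mem_closure fun x hx => h x (le_sup_right (a := K) ⟨x.2, ?_⟩)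
      refine (IntermediateField.mem_fixedField_iff _ _).2 fun g hg => ?_
      have h2 : Subgroup.closure S ≤ MulAction.stabilizer GQ (x : Qbar) := by
        rw [Subgroup.closure_le]
        intro s hs
        have h3 := hx (rr ℚ⟮ζ⟯ s) ⟨s, hs, rfl⟩
        show s (x : Qbar) = x
        rw [← rr_apply, h3]
      exact h2 hg
    -- the closure consists of symbols
    have h2 : ∀ g ∈ Subgroup.closure (rr ℚ⟮ζ⟯ '' S), ∃ 𝔟 : Ideals K, InRay K 𝔣 𝔟 ∧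
        rr ℚ⟮ζ⟯ (art 𝔟) = g := by
      intro g hg
      have h3 : g ∈ Submonoid.closure (rr ℚ⟮ζ⟯ '' S) := by
        rw [← Subgroup.closure_toSubmonoid_of_finite]
        exact hg
      induction h3 using Submonoid.closure_induction with
      | mem x hx =>
        obtain ⟨s, ⟨𝔟, hb, rfl⟩, rfl⟩ := hx
        exact ⟨𝔟, hb, rfl⟩
      | one =>
        refine ⟨1, InRay.one, ?_⟩
        rw [← map_one (rr ℚ⟮ζ⟯), rr_eq]
        refine agree_adjoin ?_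
        rw [art_zeta' hf hζ hart (cop_f hP (cop_of_ray InRay.one)), show nrm K 1 = 1 from map_one _, pow_one]
        rfl
      | mul x y hx hy ihx ihy =>
        obtain ⟨𝔟, hb, rfl⟩ := ihx (by rw [← Subgroup.closure_toSubmonoid_of_finite] at hx; exact hx)
        obtain ⟨𝔠, hc', rfl⟩ := ihy (by rw [← Subgroup.closure_toSubmonoid_of_finite] at hy; exact hy)
        refine ⟨𝔟 * 𝔠, hb.mul hc', ?_⟩
        rw [← map_mul, rr_eq]
        intro z hz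
        exact hart.mul 𝔟 𝔠 (cop_f hP (cop_of_ray hb)) (cop_f hP (cop_of_ray hc')) z
          ((le_sup_right : ℚ⟮ζ⟯ ≤ K ⊔ ℚ⟮ζ⟯) hz)
    obtain ⟨𝔟, hb, hab⟩ := h2 _ h1
    have h3 : art 𝔞 ζ = art 𝔟 ζ := (rr_eq.1 hab.symm) ζ (mem_adjoin_simple_self ℚ ζ)
    exact hR.iff hK hf hP hc hb ((zeta_iff hf hζ hart (cop_f hP hc) (cop_f hP (cop_of_ray hb))).1 h3)
  · have hfix : Fixes (K ⊔ k') (art 𝔞) := by
      rw [fixes_sup]
      refine ⟨hart.fix 𝔞 (cop_f hP hc), fun x hx => ?_⟩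
      obtain ⟨-, h1⟩ := hx
      exact (IntermediateField.mem_fixedField_iff _ _).1 h1 _ (Subgroup.subset_closure ⟨𝔞, h, rfl⟩)
    exact hfix

end Pool.Agent.J4.H71.CB
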