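import Mathlib
import Pool.Agent.J4.H71.CB.Field

/-! Stark's conjecture for the ray class fields inside `K(ζ)`. -/

set_option autoImplicit false
set_option linter.style.haveILetI false
set_option linter.unusedSectionVars false

namespace Pool.Agent.J4.H71.CB
open NumberField Module IntermediateField Pool.Agent.K4H33.SK.Stmt
open Pool.Agent.K4H33.SK (Qbar GQ Fixes IsTorsionOrder stark_cubic_general agree_sup agree_adjoin
  fixes_sup fixes_adjoin comm_adjoin)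

/-- Every automorphism over `K` is on `H` the Artin symbol of an ideal prime to `𝔣`. -/
def Onto (K H : Sub) [NumberField K] (𝔣 : Ideals K) (art : Ideals K → GQ) : Prop :=
  ∀ σ : GQ, Fixes K σ → ∃ 𝔞 : Ideals K, Cop K 𝔞 𝔣 ∧ ∀ x ∈ H, art 𝔞 x = σ x

/-- Stark's conjecture for the intermediate fields of `K(ζ)/K`. -/
theorem stark_sub (ι : Qbar →+* ℂ) (K k : Sub) [NumberField K]
    [NumberField k] (hK : finrank ℚ K = 3) (hk : finrank ℚ k = 2) (hN : Normal ℚ ↥(K ⊔ k))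
    (hι : ∃ x ∈ K, (ι x).im ≠ 0) (f : ℕ) (hf : 2 ≤ f) (ζ : Qbar) (hζ : IsPrimitiveRoot ζ f)
    (𝔪 : Ideals k) (art : Ideals k → GQ) (artK : Ideals K → GQ) (hart : Symbols K k f ζ 𝔪 art artK)
    (hA : ArtinFactorization K k f 𝔪 art) (𝔣 : Ideals K) (h𝔣 : PrimesOver K f 𝔣) (H : Sub)
    (hKH : K ≤ H) (hH : H ≤ K ⊔ ℚ⟮ζ⟯) (W' : ℕ) (hW' : IsTorsionOrder (H ⊔ k) W')
    (hS : StarkImQuad ι k (H ⊔ k) 𝔪 art W') (W : ℕ) (hW : IsTorsionOrder H W) :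
    StarkCubic ι K H 𝔣 artK W := by
  haveI := normal_cyc hf hζ
  haveI := numberField_cyc hf hζ
  have h1 : H = K ⊔ (H ⊓ ℚ⟮ζ⟯) := eq_sup hKH hH
  have h2 : H ⊔ k = K ⊔ k ⊔ (H ⊓ ℚ⟮ζ⟯) := by
    conv_lhs => rw [h1]
    rw [sup_assoc, sup_assoc, sup_comm (H ⊓ ℚ⟮ζ⟯) k]
  rw [h2] at hW' hS
  have h3 := stark_cubic_general ι K k (H ⊓ ℚ⟮ζ⟯) hK hk hN hι f hf ζ hζ inf_le_right
    𝔪 hart.dvd art hart.art_k.down artK hart.art_K.down hA W' hW' hS W (h1 ▸ hW) 𝔣 h𝔣.1 h𝔣.2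
  rw [← h1] at h3
  exact h3

variable {K : Sub} [NumberField K]

/-- The explicit case. -/
theorem rayByNorm (hK : finrank ℚ K = 3) {ι : Qbar →+* ℂ} (hι : ∃ x ∈ K, (ι x).im ≠ 0)
    (hPID : IsPrincipalIdealRing (𝓞 K)) {f : ℕ} (hf : 2 ≤ f) (hT : Tame K f) :
    RayByNorm K f (principal K f).radical := fun _ hc h =>
  (inRay_iff hK hι hPID hf hT (coprime_radical.1 hc)).2 h

/-- cubes modulo `f` -/
lemma exists_cube {f : ℕ} (hf : 2 ≤ f) (hT : Tame K f) {u : ℕ} (hu : u.Coprime f) :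
    ∃ a : ℕ, a.Coprime f ∧ a ^ 3 ≡ u [MOD f] := by
  have h1 : Nat.totient f = ∏ p ∈ f.primeFactors, (p - 1) := by
    have h2 := Nat.totient_mul_prod_primeFactors f
    rw [Nat.prod_primeFactors_of_squarefree hT.sqf, mul_comm] at h2
    exact Nat.eq_of_mul_eq_mul_left (by omega) h2
  have hφ : ¬ 3 ∣ Nat.totient f := by
    rw [h1, Prime.dvd_finsetProd_iff (Nat.prime_iff.1 Nat.prime_three)]
    rintro ⟨p, hp, h3⟩
    have h4 := hT.mod3 p (Nat.prime_of_mem_primeFactors hp) (Nat.dvd_of_mem_primeFactors hp)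
    have h5 := (Nat.prime_of_mem_primeFactors hp).two_le
    omega
  obtain ⟨m, t, hmt⟩ : ∃ m t : ℕ, 3 * m = 1 + Nat.totient f * t := by
    have h3 : Nat.totient f % 3 = 1 ∨ Nat.totient f % 3 = 2 := by omega
    rcases h3 with h3 | h3
    · exact ⟨(1 + Nat.totient f * 2) / 3, 2, by omega⟩
    · exact ⟨(1 + Nat.totient f * 1) / 3, 1, by omega⟩
  refine ⟨u ^ m, hu.pow_left m, ?_⟩
  rw [← pow_mul, mul_comm m 3, hmt, pow_add, pow_one, pow_mul]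
  calc u * (u ^ Nat.totient f) ^ t ≡ u * 1 ^ t [MOD f] := ((Nat.ModEq.pow_totient hu).pow t).mul_left u
    _ = u := by rw [one_pow, mul_one]

theorem isRay_full (hK : finrank ℚ K = 3) {ι : Qbar →+* ℂ} (hι : ∃ x ∈ K, (ι x).im ≠ 0)
    (hPID : IsPrincipalIdealRing (𝓞 K)) {f : ℕ} (hf : 2 ≤ f) (hT : Tame K f) {ζ : Qbar}
    (hζ : IsPrimitiveRoot ζ f) {art : Ideals K → GQ}
    (hart : IsArtin K (K ⊔ ℚ⟮ζ⟯) (principal K f) art) :
    IsRay K (K ⊔ ℚ⟮ζ⟯) (principal K f).radical art := by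
  haveI : NeZero f := ⟨by omega⟩
  refine ⟨le_sup_left, fun σ τ hσ hτ => ?_, fun 𝔞 hc => ?_⟩
  · have h1 : ∀ x ∈ K ⊔ ℚ⟮ζ⟯, (σ * τ) x = (τ * σ) x := by
      refine agree_sup (fun z hz => ?_) (fun z hz => ?_)
      · rw [AlgEquiv.mul_apply, AlgEquiv.mul_apply, hσ z hz, hτ z hz, hσ z hz]
      · exact comm_adjoin hζ σ τ z hz
    exact h1
  · have hc' := coprime_radical.1 hc
    rw [inRay_iff hK hι hPID hf hT hc']
    have h1 : (∀ x ∈ K ⊔ ℚ⟮ζ⟯, art 𝔞 x = x) ↔ art 𝔞 ζ = ζ := by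
      refine ⟨fun h => h ζ ((le_sup_right : ℚ⟮ζ⟯ ≤ K ⊔ ℚ⟮ζ⟯) (mem_adjoin_simple_self ℚ ζ)), fun h => ?_⟩
      have h2 : Fixes (K ⊔ ℚ⟮ζ⟯) (art 𝔞) := fixes_sup.2 ⟨hart.fix 𝔞 hc', fixes_adjoin h⟩
      exact h2
    rw [h1, art_zeta' hf hζ hart hc']
    nth_rw 2 [← pow_one ζ]
    rw [(hζ.isOfFinOrder (by omega)).pow_eq_pow_iff_modEq, ← hζ.eq_orderOf]

theorem onto_full {f : ℕ} (hK : finrank ℚ K = 3) (hf : 2 ≤ f) (hT : Tame K f) {ζ : Qbar}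
    (hζ : IsPrimitiveRoot ζ f) {art : Ideals K → GQ}
    (hart : IsArtin K (K ⊔ ℚ⟮ζ⟯) (principal K f) art) :
    Onto K (K ⊔ ℚ⟮ζ⟯) (principal K f).radical art := by
  intro σ hσ
  haveI : NeZero f := ⟨by omega⟩
  obtain ⟨n, hn⟩ : ∃ n : ℕ, n.Coprime f ∧ σ ζ = ζ ^ n := by
    have h1 : IsPrimitiveRoot (σ ζ) f := hζ.map_of_injective σ.injective
    obtain ⟨n, -, h2⟩ := hζ.eq_pow_of_pow_eq_one h1.pow_eq_one
    refine ⟨n, ?_, h2.symm⟩
    rw [← h2] at h1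
    exact (hζ.pow_iff_coprime (by omega) n).1 h1
  obtain ⟨a, ha, hau⟩ := exists_cube hf hT hn.1
  have hNa : nrm K (principal K a) = a ^ 3 := by
    show Ideal.absNorm (Ideal.span {(a : 𝓞 K)}) = _
    rw [Ideal.absNorm_span_natCast, RingOfIntegers.rank, hK]
  have hc : IsCoprime (principal K a) (principal K f) := by
    rw [Pool.Agent.K4H33.SK.coprime_norm]
    rw [show Ideal.absNorm (principal K a) = a ^ 3 from hNa]
    exact ha.pow_left 3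
  refine ⟨principal K a, coprime_radical.2 hc, agree_sup (fun z hz => ?_) (agree_adjoin ?_)⟩
  · rw [hart.fix _ hc z hz, hσ z hz]
  · rw [art_zeta' hf hζ hart hc, hn.2, hNa, (hζ.isOfFinOrder (by omega)).pow_eq_pow_iff_modEq,
      ← hζ.eq_orderOf]
    exact hau

end Pool.Agent.J4.H71.CB
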