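import Mathlib
import Pool.Agent.J4.H71.CB.Main

/-! Ray class fields of cubic fields of class number one with enough units. -/

set_option autoImplicit false
set_option linter.style.haveILetI false
set_option linter.unusedSectionVars false

namespace Pool.Agent.J4.H71.CB
open NumberField Module IntermediateField Pool.Agent.K4H33.SK.Stmt
open Pool.Agent.K4H33.SK (Qbar GQ Fixes IsTorsionOrder agree_sup agree_adjoin
  fixes_sup fixes_adjoin comm_adjoin)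

/-- Every integer of `K` whose norm is one modulo `f` is congruent modulo `𝔣` to a unit of norm
one. -/
def UnitsFill (K : Sub) [NumberField K] (f : ℕ) (𝔣 : Ideals K) : Prop :=
  ∀ α : 𝓞 K, (f : ℤ) ∣ Algebra.norm ℤ α - 1 →
    ∃ u : (𝓞 K)ˣ, Algebra.norm ℤ (u : 𝓞 K) = 1 ∧ α - (u : 𝓞 K) ∈ 𝔣

variable {K : Sub} [NumberField K] {𝔣 : Ideals K} {f : ℕ}

/-- a generator of positive norm -/
lemma exists_gen (hK : finrank ℚ K = 3) {ι : Qbar →+* ℂ} (hι : ∃ x ∈ K, (ι x).im ≠ 0)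
    (hPID : IsPrincipalIdealRing (𝓞 K)) {𝔞 : Ideals K} (h0 : nrm K 𝔞 ≠ 0) :
    ∃ α : 𝓞 K, 𝔞 = Ideal.span {α} ∧ 0 < Algebra.norm ℤ α := by
  obtain ⟨w0, hw0⟩ := exists_real hK
  obtain ⟨α₀, hα₀⟩ := (hPID.principal 𝔞).principal
  have hα₀' : 𝔞 = Ideal.span {α₀} := hα₀
  have hne : Algebra.norm ℤ α₀ ≠ 0 := by
    intro h1
    apply h0
    show Ideal.absNorm 𝔞 = 0
    rw [hα₀', Ideal.absNorm_span_singleton, h1]; rfl
  rcases lt_or_gt_of_ne hne with h1 | h1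
  · refine ⟨-α₀, by rw [hα₀', Ideal.span_singleton_neg], ?_⟩
    have h2 := norm_eq hK hι hw0 α₀
    have h3 := norm_eq hK hι hw0 (-α₀)
    have h4 : (((-α₀ : 𝓞 K) : K) : Qbar) = -((α₀ : K) : Qbar) := by simp
    rw [h4, map_neg w0, map_neg ι, norm_neg, Complex.neg_re] at h3
    have h5 : ((Algebra.norm ℤ (-α₀) : ℤ) : ℝ) = -((Algebra.norm ℤ α₀ : ℤ) : ℝ) := by
      rw [h3, h2]
      ring
    have h6 : ((Algebra.norm ℤ α₀ : ℤ) : ℝ) < 0 := by exact_mod_cast h1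
    have h7 : (0 : ℝ) < ((Algebra.norm ℤ (-α₀) : ℤ) : ℝ) := by rw [h5]; linarith
    exact_mod_cast h7
  · exact ⟨α₀, hα₀', h1⟩

/-- an integer of positive norm is positive at the real place -/
lemma pos_of_norm (hK : finrank ℚ K = 3) {ι : Qbar →+* ℂ} (hι : ∃ x ∈ K, (ι x).im ≠ 0) {α : 𝓞 K}
    (h0 : 0 < Algebra.norm ℤ α) {w : Qbar →+* ℂ} (hw : ∀ x ∈ K, (w x).im = 0) :
    0 < (w ((α : K) : Qbar)).re := by
  have h1 := norm_eq hK hι hw α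
  have h2 : (0 : ℝ) < ((Algebra.norm ℤ α : ℤ) : ℝ) := by exact_mod_cast h0
  rw [h1] at h2
  exact (pos_iff_pos_of_mul_pos h2).2 (by
    rcases eq_or_ne ‖ι ((α : K) : Qbar)‖ 0 with h3 | h3
    · rw [h3] at h2
      norm_num at h2
    · positivity)

/-- **The criterion by units.** -/
theorem UnitsFill.ray (hK : finrank ℚ K = 3) {ι : Qbar →+* ℂ} (hι : ∃ x ∈ K, (ι x).im ≠ 0)
    (hPID : IsPrincipalIdealRing (𝓞 K)) (hf : 2 ≤ f) (h𝔣 : PrimesOver K f 𝔣) (hU : UnitsFill K f 𝔣) :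
    RayByNorm K f 𝔣 := by
  intro 𝔞 hc hN
  have h0 : nrm K 𝔞 ≠ 0 := by
    intro h0
    have h1 : (nrm K 𝔞).Coprime f := (Pool.Agent.K4H33.SK.coprime_norm 𝔞).1 (cop_f h𝔣 hc)
    rw [h0, Nat.coprime_zero_left] at h1
    omega
  obtain ⟨α, rfl, hα⟩ := exists_gen hK hι hPID h0
  have hNα : ((nrm K (Ideal.span {α}) : ℕ) : ℤ) = Algebra.norm ℤ α := by
    show ((Ideal.absNorm (Ideal.span {α}) : ℕ) : ℤ) = _
    rw [Ideal.absNorm_span_singleton, Int.natAbs_of_nonneg hα.le]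
  have h1 : (f : ℤ) ∣ Algebra.norm ℤ α - 1 := by
    have h2 := Nat.modEq_iff_dvd.1 hN.symm
    rw [hNα] at h2
    exact_mod_cast h2
  obtain ⟨u, hu, hαu⟩ := hU α h1
  refine ⟨(↑u⁻¹ : 𝓞 K) * α, ?_, fun w hw => ?_, ?_⟩
  · have e : (↑u⁻¹ : 𝓞 K) * α - 1 = (↑u⁻¹ : 𝓞 K) * (α - u) := by
      rw [mul_sub, Units.inv_mul]
    rw [e]
    exact 𝔣.mul_mem_left _ hαu
  · apply pos_of_norm hK hι _ hw
    have h2 : Algebra.norm ℤ (↑u⁻¹ : 𝓞 K) = 1 := by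
      have h3 : Algebra.norm ℤ (↑u⁻¹ : 𝓞 K) * Algebra.norm ℤ (u : 𝓞 K) = 1 := by
        rw [← map_mul, Units.inv_mul, map_one]
      rwa [hu, mul_one] at h3
    rw [map_mul, h2, one_mul]
    exact hα
  · rw [mul_comm]
    exact (Ideal.span_singleton_mul_right_unit u⁻¹.isUnit α).symm

/-- the norm of an integer congruent to one -/
lemma norm_one_mod {α : 𝓞 K} (h : α - 1 ∈ principal K f) : (f : ℤ) ∣ Algebra.norm ℤ α - 1 := by
  classical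
  obtain ⟨β, hβ⟩ := Ideal.mem_span_singleton'.1 h
  let b := RingOfIntegers.basis K
  have h1 : α = 1 + (f : 𝓞 K) * β := by rw [mul_comm, hβ]; ring
  have h2 : Algebra.norm ℤ α = (1 + (f : ℤ) • Algebra.leftMulMatrix b β).det := by
    rw [Algebra.norm_eq_matrix_det b, h1, map_add, map_one, map_mul, map_natCast]
    congr 1
    rw [zsmul_eq_mul]
    simp
  have h4 : (Int.castRingHom (ZMod f)).mapMatrix (1 + (f : ℤ) • Algebra.leftMulMatrix b β) = 1 := by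
    have h5 : ((f : ℤ) • Algebra.leftMulMatrix b β).map (Int.castRingHom (ZMod f)) = 0 := by
      ext i j
      rw [Matrix.map_apply, Matrix.smul_apply, smul_eq_mul, map_mul]
      simp
    rw [map_add, map_one, RingHom.mapMatrix_apply, h5, add_zero]
  have h3 : (Int.castRingHom (ZMod f)) (Algebra.norm ℤ α) = 1 := by
    rw [h2, RingHom.map_det, h4, Matrix.det_one]
  rw [← ZMod.intCast_zmod_eq_zero_iff_dvd]
  push_cast
  rw [sub_eq_zero]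
  exact h3

/-- the norm of an ideal in the ray -/
lemma norm_of_ray (hK : finrank ℚ K = 3) {ι : Qbar →+* ℂ} (hι : ∃ x ∈ K, (ι x).im ≠ 0)
    (h𝔣 : 𝔣 ≤ principal K f) {𝔞 : Ideals K} (h : InRay K 𝔣 𝔞) : nrm K 𝔞 ≡ 1 [MOD f] := by
  obtain ⟨w0, hw0⟩ := exists_real hK
  obtain ⟨α, hα, hpos, rfl⟩ := h
  have hι0 : 0 < ‖ι ((α : K) : Qbar)‖ ^ 2 := by
    have h1 := hpos w0 hw0
    have h2 : ((α : K) : Qbar) ≠ 0 := by
      intro h0
      rw [h0] at h1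
      simp at h1
    have h3 : ι ((α : K) : Qbar) ≠ 0 := by simpa using h2
    positivity
  have hN0 : 0 < Algebra.norm ℤ α := by
    have h1 := norm_eq hK hι hw0 α
    have h2 : (0 : ℝ) < ((Algebra.norm ℤ α : ℤ) : ℝ) := by
      rw [h1]
      exact mul_pos (hpos w0 hw0) hι0
    exact_mod_cast h2
  have hN : ((nrm K (Ideal.span {α}) : ℕ) : ℤ) = Algebra.norm ℤ α := by
    show ((Ideal.absNorm (Ideal.span {α}) : ℕ) : ℤ) = _
    rw [Ideal.absNorm_span_singleton, Int.natAbs_of_nonneg hN0.le]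
  refine (Nat.modEq_iff_dvd.2 ?_).symm
  rw [hN]
  exact_mod_cast norm_one_mod (h𝔣 hα)

/-- The ray class field is `K(ζ)`. -/
theorem isRay_cyc (hK : finrank ℚ K = 3) {ι : Qbar →+* ℂ} (hι : ∃ x ∈ K, (ι x).im ≠ 0)
    (hf : 2 ≤ f) {ζ : Qbar} (hζ : IsPrimitiveRoot ζ f) {art : Ideals K → GQ}
    (hart : IsArtin K (K ⊔ ℚ⟮ζ⟯) (principal K f) art) (hP : PrimesOver K f 𝔣)
    (hR : RayByNorm K f 𝔣) (h𝔣 : 𝔣 ≤ principal K f) : IsRay K (K ⊔ ℚ⟮ζ⟯) 𝔣 art := by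
  haveI : NeZero f := ⟨by omega⟩
  refine ⟨le_sup_left, fun σ τ hσ hτ => ?_, fun 𝔞 hc => ?_⟩
  · have h1 : ∀ x ∈ K ⊔ ℚ⟮ζ⟯, (σ * τ) x = (τ * σ) x := by
      refine agree_sup (fun z hz => ?_) (fun z hz => ?_)
      · rw [AlgEquiv.mul_apply, AlgEquiv.mul_apply, hσ z hz, hτ z hz, hσ z hz]
      · exact comm_adjoin hζ σ τ z hz
    exact h1
  · have hc' := cop_f hP hc
    have h0 : InRay K 𝔣 𝔞 ↔ nrm K 𝔞 ≡ 1 [MOD f] := ⟨norm_of_ray hK hι h𝔣, hR 𝔞 hc⟩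
    rw [h0]
    have h1 : (∀ x ∈ K ⊔ ℚ⟮ζ⟯, art 𝔞 x = x) ↔ art 𝔞 ζ = ζ := by
      refine ⟨fun h => h ζ ((le_sup_right : ℚ⟮ζ⟯ ≤ K ⊔ ℚ⟮ζ⟯) (mem_adjoin_simple_self ℚ ζ)), fun h => ?_⟩
      have h2 : Fixes (K ⊔ ℚ⟮ζ⟯) (art 𝔞) := fixes_sup.2 ⟨hart.fix 𝔞 hc', fixes_adjoin h⟩
      exact h2
    rw [h1, art_zeta' hf hζ hart hc']
    nth_rw 2 [← pow_one ζ]
    rw [(hζ.isOfFinOrder (by omega)).pow_eq_pow_iff_modEq, ← hζ.eq_orderOf]

end Pool.Agent.J4.H71.CB
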