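import Mathlib
import Pool.Agent.J4.H71.CB.Units
import Pool.Agent.J4.H71.CB.Dir

/-! The norms of the ideals of a cubic field cover all classes modulo `f`, so that the Artin map of
`K(ζ)/K` is onto. -/

set_option autoImplicit false
set_option linter.style.haveILetI false
set_option linter.unusedSectionVars false

namespace Pool.Agent.J4.H71.CB
open NumberField Module IntermediateField Pool.Agent.K4H33.SK.Stmt
open Pool.Agent.K4H33.SK (Qbar GQ Fixes IsTorsionOrder agree_sup agree_adjoin mem_of_fixed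
  fixes_sup fixes_adjoin comm_adjoin coprime_norm)

/-- a quadratic field contains the square root of an integer which is not a square -/
lemma exists_sqrt {k : Sub} [NumberField k] (hk : finrank ℚ k = 2) :
    ∃ (D : ℤ) (w : 𝓞 k), ¬ IsSquare D ∧ w ^ 2 = (D : 𝓞 k) := by
  obtain ⟨y, hy⟩ : ∃ y : k, y ∉ (algebraMap ℚ k).range := by
    by_contra hcon
    push Not at hcon
    have h1 : Function.Surjective (algebraMap ℚ k) := fun y => hcon y
    have h2 : finrank ℚ k = finrank ℚ ℚ :=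
      (LinearEquiv.ofBijective (Algebra.linearMap ℚ k)
        ⟨(algebraMap ℚ k).injective, h1⟩).finrank_eq.symm
    rw [hk, finrank_self] at h2
    omega
  have hint : IsIntegral ℚ y := Algebra.IsIntegral.isIntegral y
  have hle : (minpoly ℚ y).natDegree ≤ 2 := by rw [← hk]; exact minpoly.natDegree_le y
  have hge : 2 ≤ (minpoly ℚ y).natDegree := (minpoly.two_le_natDegree_iff hint).2 hy
  have hdeg : (minpoly ℚ y).natDegree = 2 := le_antisymm hle hge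
  have h1 := minpoly.aeval ℚ y
  rw [Polynomial.aeval_eq_sum_range, hdeg, Finset.sum_range_succ, Finset.sum_range_succ,
    Finset.sum_range_succ, Finset.sum_range_zero, zero_add] at h1
  have hlead : (minpoly ℚ y).coeff 2 = 1 := by
    have := (minpoly.monic hint).coeff_natDegree
    rwa [hdeg] at this
  rw [hlead, one_smul, pow_zero, pow_one, Algebra.smul_def, Algebra.smul_def, mul_one] at h1
  set c : ℚ := (minpoly ℚ y).coeff 0
  set b : ℚ := (minpoly ℚ y).coeff 1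
  set r : ℚ := b ^ 2 - 4 * c with hr
  have h2 : (2 * y + algebraMap ℚ k b) ^ 2 = algebraMap ℚ k r := by
    rw [hr, map_sub, map_pow, map_mul, map_ofNat]
    linear_combination 4 * h1
  set W : k := (r.den : k) * (2 * y + algebraMap ℚ k b) with hW
  have hden : (r.den : ℚ) ≠ 0 := by exact_mod_cast r.den_ne_zero
  have h3 : W ^ 2 = algebraMap ℚ k ((r.den * r.num : ℤ) : ℚ) := by
    rw [hW, mul_pow, h2]
    have h4 : ((r.den * r.num : ℤ) : ℚ) = (r.den : ℚ) ^ 2 * r := by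
      push_cast
      nth_rw 4 [← Rat.num_div_den r]
      field_simp
    rw [h4, map_mul, map_pow, map_natCast]
  have hWint : IsIntegral ℤ W := by
    refine IsIntegral.of_pow (n := 2) (by norm_num) ?_
    rw [h3]
    have h5 : algebraMap ℚ k ((r.den * r.num : ℤ) : ℚ) = algebraMap ℤ k (r.den * r.num : ℤ) := by
      simp
    rw [h5]
    exact isIntegral_algebraMap
  obtain ⟨w', hw'⟩ : ∃ w' : 𝓞 k, (w' : k) = W := ⟨⟨W, hWint⟩, rfl⟩
  refine ⟨r.den * r.num, w', ?_, ?_⟩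
  · rintro ⟨s, hs⟩
    have h4 : W ^ 2 = algebraMap ℚ k (s : ℚ) ^ 2 := by
      rw [h3, hs, ← map_pow]
      congr 1
      push_cast
      ring
    have h5 : ∃ t : ℚ, W = algebraMap ℚ k t := by
      rcases sq_eq_sq_iff_eq_or_eq_neg.1 h4 with h | h
      · exact ⟨s, h⟩
      · exact ⟨-s, by rw [h, map_neg]⟩
    obtain ⟨t, ht⟩ := h5
    apply hy
    refine ⟨(t / r.den - b) / 2, ?_⟩
    have hdk : (r.den : k) ≠ 0 := by exact_mod_cast r.den_ne_zero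
    rw [map_div₀, map_sub, map_div₀, ← ht, hW, map_natCast, map_ofNat]
    field_simp
    ring
  · apply RingOfIntegers.ext
    have h4 : ((w' ^ 2 : 𝓞 k) : k) = (w' : k) ^ 2 := map_pow (algebraMap (𝓞 k) k) w' 2
    refine h4.trans ?_
    rw [hw', h3]
    simp

lemma mem_int {k : Sub} [NumberField k] {p : ℕ} (hp : p.Prime) {P : Ideals k} (hP : P.IsPrime)
    (hpP : (p : 𝓞 k) ∈ P) {m : ℤ} (hm : (m : 𝓞 k) ∈ P) : (p : ℤ) ∣ m := by
  by_contra hd
  have h1 : IsCoprime m (p : ℤ) := by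
    rw [isCoprime_comm]
    exact (Prime.coprime_iff_not_dvd (Nat.prime_iff_prime_int.1 hp)).2 hd
  obtain ⟨a, b, hab⟩ := h1
  apply hP.ne_top
  rw [Ideal.eq_top_iff_one]
  have h2 : ((a * m + b * (p : ℤ) : ℤ) : 𝓞 k) = 1 := by rw [hab]; simp
  rw [← h2]
  push_cast
  exact P.add_mem (P.mul_mem_left _ hm) (P.mul_mem_left _ hpP)

/-- no ideal of `k` of norm `p` -/
lemma no_ideal {k : Sub} [NumberField k] {D : ℤ} {w : 𝓞 k} (hw : w ^ 2 = (D : 𝓞 k)) {p : ℕ}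
    (hp : p.Prime) (hD : ¬ IsSquare ((D : ℤ) : ZMod p)) (𝔟 : Ideals k) : nrm k 𝔟 ≠ p := by
  intro hN
  have hP : 𝔟.IsPrime := Ideal.isPrime_of_irreducible_absNorm (by rw [show Ideal.absNorm 𝔟 = p from hN]; exact hp)
  have hpP : (p : 𝓞 k) ∈ 𝔟 := by
    have := Ideal.absNorm_mem 𝔟
    rwa [show Ideal.absNorm 𝔟 = p from hN] at this
  obtain ⟨a, ha⟩ := exists_residue hp hP hpP hN w
  have h1 : ((D - a ^ 2 : ℤ) : 𝓞 k) ∈ 𝔟 := by
    have h2 : ((D - a ^ 2 : ℤ) : 𝓞 k) = (w + a) * (w - a) := by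
      push_cast
      rw [← hw]
      ring
    rw [h2]
    exact 𝔟.mul_mem_left _ ha
  have h2 := mem_int hp hP hpP h1
  apply hD
  refine ⟨(a : ZMod p), ?_⟩
  have h3 : (((D - a ^ 2 : ℤ)) : ZMod p) = 0 := (ZMod.intCast_zmod_eq_zero_iff_dvd _ p).2 h2
  push_cast at h3
  rw [sub_eq_zero] at h3
  rw [h3, sq]

/-- an automorphism which fixes `k` and not `K` -/
lemma exists_sigma {K k : Sub} [NumberField K] [NumberField k] (hK : finrank ℚ K = 3)
    (hk : finrank ℚ k = 2) : ∃ σ : GQ, Fixes k σ ∧ ¬ Fixes K σ := by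
  by_contra hcon
  push Not at hcon
  have h1 : K ≤ k := fun x hx => mem_of_fixed k fun σ hσ => hcon σ hσ x hx
  have h2 : finrank ℚ K ≤ finrank ℚ k :=
    LinearMap.finrank_le_finrank_of_injective (f := (IntermediateField.inclusion h1).toLinearMap)
      (IntermediateField.inclusion h1).injective
  omega

/-- The symbol of the unit ideal. -/
lemma art_top {F M : Sub} [NumberField F] {𝔪 : Ideals F} {art : Ideals F → GQ}
    (hart : IsArtin F M 𝔪 art) {x : Qbar} (hx : x ∈ M) : art ⊤ x = x := by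
  have hc : IsCoprime (⊤ : Ideals F) 𝔪 := by
    rw [← Ideal.one_eq_top]
    exact isCoprime_one_left
  have h1 := hart.mul ⊤ ⊤ hc hc x hx
  have h2 : prd F ⊤ ⊤ = ⊤ := by
    show (⊤ : Ideals F) * ⊤ = ⊤
    exact Ideal.top_mul _
  rw [h2] at h1
  exact ((art ⊤).injective h1).symm

/-- **Ideals of `K` of norm `p` for primes `p` inert in `k`.** -/
lemma exists_ideal {K k : Sub} [NumberField K] [NumberField k] (hK : finrank ℚ K = 3)
    (hk : finrank ℚ k = 2) {M : Sub} (hM : K ⊔ k ≤ M) {f : ℕ} {𝔪 : Ideals k} {art : Ideals k → GQ}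
    (hart : IsArtin k M 𝔪 art) (hA : ArtinFactorization K k f 𝔪 art) {p : ℕ} (hp : p.Prime)
    (hpf : p.Coprime f) (hno : ∀ 𝔟 : Ideals k, nrm k 𝔟 ≠ p) : ∃ 𝔞 : Ideals K, nrm K 𝔞 = p := by
  obtain ⟨σ, hσ, hσK⟩ := exists_sigma hK hk
  have h1 := hA σ hσ hσK p hpf
  rw [Nat.Prime.sum_divisors hp] at h1
  have hz : ∀ τ : GQ, cnt k (K ⊔ k) 𝔪 art τ p = 0 := fun τ => by
    haveI : IsEmpty {𝔟 : Ideals k // nrm k 𝔟 = p ∧ Cop k 𝔟 𝔪 ∧ ∀ x ∈ K ⊔ k, art 𝔟 x = τ x} :=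
      ⟨fun 𝔟 => hno 𝔟.1 𝔟.2.1⟩
    exact Nat.card_of_isEmpty
  have hone : ∀ {𝔟 : Ideals k}, nrm k 𝔟 = 1 → 𝔟 = ⊤ := fun {𝔟} h => Ideal.absNorm_eq_one_iff.1 h
  have h2 : cnt k (K ⊔ k) 𝔪 art σ 1 = 0 := by
    haveI : IsEmpty {𝔟 : Ideals k // nrm k 𝔟 = 1 ∧ Cop k 𝔟 𝔪 ∧ ∀ x ∈ K ⊔ k, art 𝔟 x = σ x} := by
      refine ⟨fun 𝔟 => hσK fun x hx => ?_⟩
      have h3 := 𝔟.2.2.2 x ((le_sup_left : K ≤ K ⊔ k) hx)
      rw [hone 𝔟.2.1, art_top hart (hM ((le_sup_left : K ≤ K ⊔ k) hx))] at h3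
      exact h3.symm
    exact Nat.card_of_isEmpty
  have h3 : cnt k (K ⊔ k) 𝔪 art 1 1 ≠ 0 := by
    have hfin : Finite {𝔟 : Ideals k // nrm k 𝔟 = 1 ∧ Cop k 𝔟 𝔪 ∧ ∀ x ∈ K ⊔ k, art 𝔟 x = (1 : GQ) x} := by
      haveI : Subsingleton {𝔟 : Ideals k // nrm k 𝔟 = 1 ∧ Cop k 𝔟 𝔪 ∧
          ∀ x ∈ K ⊔ k, art 𝔟 x = (1 : GQ) x} :=
        ⟨fun 𝔟 𝔠 => Subtype.ext ((hone 𝔟.2.1).trans (hone 𝔠.2.1).symm)⟩
      infer_instance
    haveI : Nonempty {𝔟 : Ideals k // nrm k 𝔟 = 1 ∧ Cop k 𝔟 𝔪 ∧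
        ∀ x ∈ K ⊔ k, art 𝔟 x = (1 : GQ) x} := by
      refine ⟨⟨⊤, Ideal.absNorm_top, ?_, fun x hx => art_top hart (hM hx)⟩⟩
      show IsCoprime (⊤ : Ideals k) 𝔪
      rw [← Ideal.one_eq_top]
      exact isCoprime_one_left
    exact Nat.card_pos.ne'
  rw [hz, hz, h2] at h1
  by_contra hcon
  push Not at hcon
  have h4 : cntAll K p = 0 := by
    haveI : IsEmpty {𝔟 : Ideals K // nrm K 𝔟 = p} := ⟨fun 𝔟 => hcon 𝔟.1 𝔟.2⟩
    exact Nat.card_of_isEmpty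
  rw [h4] at h1
  push_cast at h1
  apply h3
  have : (cnt k (K ⊔ k) 𝔪 art 1 1 : ℤ) = 0 := by linarith
  exact_mod_cast this

/-- The norms of the ideals of `K` cover all classes modulo `f`. -/
theorem exists_norm {K k : Sub} [NumberField K] [NumberField k] (hK : finrank ℚ K = 3)
    (hk : finrank ℚ k = 2) {M : Sub} (hM : K ⊔ k ≤ M) {f : ℕ} (hf : 0 < f) {𝔪 : Ideals k}
    {art : Ideals k → GQ} (hart : IsArtin k M 𝔪 art) (hA : ArtinFactorization K k f 𝔪 art)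
    {u : ℕ} (hu : u.Coprime f) : ∃ 𝔞 : Ideals K, nrm K 𝔞 ≡ u [MOD f] := by
  obtain ⟨D, w, hD, hw⟩ := exists_sqrt hk
  obtain ⟨l, hl, hlu⟩ := exists_list D hD hf hu
  suffices h : ∀ l : List ℕ, (∀ p ∈ l, p.Prime ∧ p.Coprime f ∧ ¬ IsSquare ((D : ℤ) : ZMod p)) →
      ∃ 𝔞 : Ideals K, nrm K 𝔞 = l.prod by
    obtain ⟨𝔞, h𝔞⟩ := h l hl
    exact ⟨𝔞, by rw [h𝔞]; exact hlu⟩
  intro l hl
  induction l with
  | nil => exact ⟨⊤, by simp⟩
  | cons p l ih =>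
    obtain ⟨𝔞, h𝔞⟩ := ih fun q hq => hl q (List.mem_cons_of_mem _ hq)
    obtain ⟨hp, hpf, hns⟩ := hl p List.mem_cons_self
    obtain ⟨𝔟, h𝔟⟩ := exists_ideal hK hk hM hart hA hp hpf (no_ideal hw hp hns)
    refine ⟨𝔟 * 𝔞, ?_⟩
    show Ideal.absNorm (𝔟 * 𝔞) = _
    rw [map_mul, List.prod_cons]
    exact congrArg₂ (· * ·) h𝔟 h𝔞

end Pool.Agent.J4.H71.CB
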