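import Mathlib
import Pool.Agent.J4.H71.CB.Onto

/-! Narrow ray class fields inside `K(ζ)` and Stark's conjecture. -/

set_option autoImplicit false
set_option linter.style.haveILetI false
set_option linter.unusedSectionVars false

namespace Pool.Agent.J4.H71.CB
open NumberField Module IntermediateField Pool.Agent.K4H33.SK.Stmt
open Pool.Agent.K4H33.SK (Qbar GQ Fixes IsTorsionOrder agree_sup agree_adjoin mem_of_fixed
  fixes_sup fixes_adjoin comm_adjoin coprime_norm)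

/-- `H` is the narrow ray class field of `K` modulo `𝔣`: an abelian extension of `K` such that the
Artin map of the ideals prime to `𝔣` to its Galois group is onto, with kernel the ideals that have a
generator congruent to one modulo `𝔣` and positive at the real place. -/
structure IsRayClassField (K H : Sub) [NumberField K] (𝔣 : Ideals K) (art : Ideals K → GQ) :
    Prop where
  le : K ≤ H
  comm : ∀ σ τ : GQ, Fixes K σ → Fixes K τ → ∀ x ∈ H, σ (τ x) = τ (σ x)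
  onto : ∀ σ : GQ, Fixes K σ → ∃ 𝔞 : Ideals K, Cop K 𝔞 𝔣 ∧ ∀ x ∈ H, art 𝔞 x = σ x
  kernel : ∀ 𝔞 : Ideals K, Cop K 𝔞 𝔣 → ((∀ x ∈ H, art 𝔞 x = x) ↔ InRay K 𝔣 𝔞)

/-- Conditions which put the narrow ray class field modulo `𝔣` into `K(ζ)`: every ideal prime to `𝔣`
whose norm is one modulo `f` has a generator congruent to one modulo `𝔣` and positive at the real
place; or `K` has class number one, and the units of norm one fill the elements of norm one modulo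
`f` or `f` is a product of primes with exactly one prime of `K` above, of norm `p ≢ 1` modulo `3`
(or `p = 2` with primes above of norm `2`) and `𝔣` is the product of the primes above `f`. -/
def Criterion (K : Sub) [NumberField K] (f : ℕ) (𝔣 : Ideals K) : Prop :=
  RayByNorm K f 𝔣 ∨
    IsPrincipalIdealRing (𝓞 K) ∧
      (UnitsFill K f 𝔣 ∨ Tame K f ∧ 𝔣 = (principal K f).radical)

/-- the Artin map is onto -/
theorem onto {K k : Sub} [NumberField K] [NumberField k] (hK : finrank ℚ K = 3)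
    (hk : finrank ℚ k = 2) {f : ℕ} (hf : 2 ≤ f) {ζ : Qbar} (hζ : IsPrimitiveRoot ζ f)
    {𝔪 : Ideals k} {art : Ideals k → GQ} {artK : Ideals K → GQ}
    (hart : Symbols K k f ζ 𝔪 art artK) (hA : ArtinFactorization K k f 𝔪 art)
    {𝔣 : Ideals K} (h𝔣 : PrimesOver K f 𝔣) :
    Onto K (K ⊔ ℚ⟮ζ⟯) 𝔣 artK := by
  intro σ hσ
  haveI : NeZero f := ⟨by omega⟩
  obtain ⟨n, hn, hσζ⟩ : ∃ n : ℕ, n.Coprime f ∧ σ ζ = ζ ^ n := by
    have h1 : IsPrimitiveRoot (σ ζ) f := hζ.map_of_injective σ.injective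
    obtain ⟨n, -, h2⟩ := hζ.eq_pow_of_pow_eq_one h1.pow_eq_one
    refine ⟨n, ?_, h2.symm⟩
    rw [← h2] at h1
    exact (hζ.pow_iff_coprime (by omega) n).1 h1
  have hN0 : Ideal.absNorm 𝔣 ≠ 0 := fun h0 => h𝔣.1 (Ideal.absNorm_eq_zero_iff.1 h0)
  set g : ℕ := f * Ideal.absNorm 𝔣 with hg
  have hg0 : 0 < g := Nat.mul_pos (by omega) (Nat.pos_of_ne_zero hN0)
  obtain ⟨q, hqg, hq, hqn⟩ := Nat.forall_exists_prime_gt_and_eq_mod
    ((ZMod.isUnit_iff_coprime n f).2 hn) g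
  have hqc : q.Coprime g := (Nat.Prime.coprime_iff_not_dvd hq).2 fun hd =>
    absurd (Nat.le_of_dvd hg0 hd) (by omega)
  obtain ⟨D, w, hD, hw⟩ := exists_sqrt hk
  obtain ⟨l, hl, hlu⟩ := exists_list D hD hg0 hqc
  have key : ∀ l : List ℕ, (∀ p ∈ l, p.Prime ∧ p.Coprime g ∧ ¬ IsSquare ((D : ℤ) : ZMod p)) →
      l.prod.Coprime g ∧ ∃ 𝔞 : Ideals K, nrm K 𝔞 = l.prod := by
    intro l hl
    induction l with
    | nil => exact ⟨by simp, ⊤, by simp⟩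
    | cons p l ih =>
      obtain ⟨hc, 𝔞, h𝔞⟩ := ih fun q hq => hl q (List.mem_cons_of_mem _ hq)
      obtain ⟨hp, hpg, hns⟩ := hl p List.mem_cons_self
      obtain ⟨𝔟, h𝔟⟩ := exists_ideal hK hk (M := K ⊔ k ⊔ ℚ⟮ζ⟯) le_sup_left hart.art_k hA hp
        (hpg.coprime_dvd_right ⟨_, rfl⟩) (no_ideal hw hp hns)
      refine ⟨?_, 𝔟 * 𝔞, ?_⟩
      · rw [List.prod_cons]
        exact hpg.mul_left hc
      · show Ideal.absNorm (𝔟 * 𝔞) = _
        rw [map_mul, List.prod_cons]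
        exact congrArg₂ (· * ·) h𝔟 h𝔞
  obtain ⟨hc, 𝔞, h𝔞⟩ := key l hl
  have hc1 : IsCoprime 𝔞 𝔣 := by
    have h1 : IsCoprime 𝔞 (Ideal.span {((Ideal.absNorm 𝔣 : ℕ) : 𝓞 K)}) := by
      rw [coprime_norm, show Ideal.absNorm 𝔞 = l.prod from h𝔞]
      exact hc.coprime_dvd_right ⟨f, by rw [hg, mul_comm]⟩
    rw [Ideal.isCoprime_iff_exists] at h1 ⊢
    obtain ⟨i, hi, j, hj, hij⟩ := h1
    exact ⟨i, hi, j, (Ideal.span_singleton_le_iff_mem 𝔣).2 (Ideal.absNorm_mem 𝔣) hj, hij⟩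
  have hc2 : IsCoprime 𝔞 (principal K f) := cop_f h𝔣 hc1
  have hmod : nrm K 𝔞 ≡ n [MOD f] := by
    rw [h𝔞]
    exact (hlu.of_dvd ⟨_, rfl⟩).trans ((ZMod.natCast_eq_natCast_iff _ _ _).1 hqn)
  refine ⟨𝔞, hc1, agree_sup (fun z hz => ?_) (agree_adjoin ?_)⟩
  · rw [hart.art_K.fix _ hc2 z hz, hσ z hz]
  · rw [art_zeta' hf hζ hart.art_K hc2, hσζ, (hζ.isOfFinOrder (by omega)).pow_eq_pow_iff_modEq,
      ← hζ.eq_orderOf]
    exact hmod

/-- uniqueness of the ray class field -/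
theorem ray_le {K H H' M : Sub} [NumberField K] {𝔣 : Ideals K} {art : Ideals K → GQ}
    (hO : Onto K M 𝔣 art) (hH : IsRay K H 𝔣 art) (hH' : IsRay K H' 𝔣 art) (hM : H ≤ M)
    (hM' : H' ≤ M) : H ≤ H' := by
  intro x hx
  apply mem_of_fixed
  intro τ hτ
  obtain ⟨𝔞, hc, h𝔞⟩ := hO τ (hτ.mono hH'.le)
  have h1 : InRay K 𝔣 𝔞 := (hH'.kernel 𝔞 hc).1 fun y hy => by rw [h𝔞 y (hM' hy), hτ y hy]
  have h2 := (hH.kernel 𝔞 hc).2 h1 x hx
  rw [← h𝔞 x (hM hx), h2]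

/-- the norm of an ideal in the ray, for tame `f` -/
lemma norm_of_tame {K : Sub} [NumberField K] {f : ℕ} (hK : finrank ℚ K = 3) {ι : Qbar →+* ℂ}
    (hι : ∃ x ∈ K, (ι x).im ≠ 0) (hT : Tame K f) {𝔞 : Ideals K}
    (hc : IsCoprime 𝔞 (principal K f)) (h : InRay K (principal K f).radical 𝔞) :
    nrm K 𝔞 ≡ 1 [MOD f] := by
  obtain ⟨w0, hw0⟩ := exists_real hK
  have hcop : (nrm K 𝔞).Coprime f := (coprime_norm 𝔞).1 hc
  obtain ⟨α, hα, hpos, rfl⟩ := h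
  have hι0 : 0 < ‖ι ((α : K) : Qbar)‖ ^ 2 := by
    have h1 := hpos w0 hw0
    have h2 : ((α : K) : Qbar) ≠ 0 := by
      intro h0
      rw [h0] at h1
      simp at h1
    have h3 : ι ((α : K) : Qbar) ≠ 0 := by simpa using h2
    positivity
  have hN0 : 0 < Algebra.norm ℤ α := by
    have h1 := norm_eq hK hι hw0 α
    have h2 : (0 : ℝ) < ((Algebra.norm ℤ α : ℤ) : ℝ) := by
      rw [h1]
      exact mul_pos (hpos w0 hw0) hι0
    exact_mod_cast h2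
  have hN : ((nrm K (Ideal.span {α}) : ℕ) : ℤ) = Algebra.norm ℤ α := by
    show ((Ideal.absNorm (Ideal.span {α}) : ℕ) : ℤ) = _
    rw [Ideal.absNorm_span_singleton, Int.natAbs_of_nonneg hN0.le]
  have key : (f : ℤ) ∣ Algebra.norm ℤ α - 1 := by
    refine dvd_of_primes hT.sqf fun p hp hpf => ?_
    by_cases hp2 : p = 2
    · subst hp2
      have h1 : (nrm K (Ideal.span {α})).Coprime 2 := hcop.coprime_dvd_right hpf
      have h2 : ¬ 2 ∣ nrm K (Ideal.span {α}) := fun h => by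
        have := Nat.dvd_gcd h (dvd_refl 2)
        rw [h1.gcd_eq_one] at this
        omega
      rw [← hN]
      push_cast
      omega
    · obtain ⟨P, hP, hpP⟩ := exists_above (K := K) hp
      have h1 : α - ((1 : ℤ) : 𝓞 K) ∈ P := by
        have h2 : (principal K f).radical ≤ P := by
          rw [hP.radical_le_iff]
          rw [Ideal.span_singleton_le_iff_mem]
          obtain ⟨m, rfl⟩ := hpf
          rw [Nat.cast_mul]
          exact P.mul_mem_right _ hpP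
        simpa using h2 hα
      have h3 := norm_mod hK hp hP hpP (fun Q hQ hpQ => hT.one p hp hpf hp2 Q P hQ hP hpQ hpP) h1
      simpa using h3
  refine (Nat.modEq_iff_dvd.2 ?_).symm
  rw [hN]
  exact_mod_cast key

/-- The ray class field is `K(ζ)`. -/
theorem isRay_of {K : Sub} [NumberField K] {f : ℕ} {𝔣 : Ideals K}
    (hf : 2 ≤ f) {ζ : Qbar} (hζ : IsPrimitiveRoot ζ f) {art : Ideals K → GQ}
    (hart : IsArtin K (K ⊔ ℚ⟮ζ⟯) (principal K f) art) (hP : PrimesOver K f 𝔣)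
    (hR : RayByNorm K f 𝔣) (hdir : ∀ 𝔞 : Ideals K, Cop K 𝔞 𝔣 → InRay K 𝔣 𝔞 → nrm K 𝔞 ≡ 1 [MOD f]) :
    IsRay K (K ⊔ ℚ⟮ζ⟯) 𝔣 art := by
  haveI : NeZero f := ⟨by omega⟩
  refine ⟨le_sup_left, fun σ τ hσ hτ => ?_, fun 𝔞 hc => ?_⟩
  · have h1 : ∀ x ∈ K ⊔ ℚ⟮ζ⟯, (σ * τ) x = (τ * σ) x := by
      refine agree_sup (fun z hz => ?_) (fun z hz => ?_)
      · rw [AlgEquiv.mul_apply, AlgEquiv.mul_apply, hσ z hz, hτ z hz, hσ z hz]
      · exact comm_adjoin hζ σ τ z hz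
    exact h1
  · have hc' := cop_f hP hc
    have h0 : InRay K 𝔣 𝔞 ↔ nrm K 𝔞 ≡ 1 [MOD f] := ⟨hdir 𝔞 hc, hR 𝔞 hc⟩
    rw [h0]
    have h1 : (∀ x ∈ K ⊔ ℚ⟮ζ⟯, art 𝔞 x = x) ↔ art 𝔞 ζ = ζ := by
      refine ⟨fun h => h ζ ((le_sup_right : ℚ⟮ζ⟯ ≤ K ⊔ ℚ⟮ζ⟯) (mem_adjoin_simple_self ℚ ζ)), fun h => ?_⟩
      have h2 : Fixes (K ⊔ ℚ⟮ζ⟯) (art 𝔞) := fixes_sup.2 ⟨hart.fix 𝔞 hc', fixes_adjoin h⟩
      exact h2
    rw [h1, art_zeta' hf hζ hart hc']
    nth_rw 2 [← pow_one ζ]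
    rw [(hζ.isOfFinOrder (by omega)).pow_eq_pow_iff_modEq, ← hζ.eq_orderOf]

/-- **Stark's conjecture for narrow ray class fields inside `K(ζ)`.** -/
theorem stark_ray (ι : Qbar →+* ℂ) (K k : Sub) [NumberField K] [NumberField k] (f : ℕ) (ζ : Qbar)
    (hF : Fields ι K k ℚ⟮ζ⟯ f ζ) (𝔪 : Ideals k) (art : Ideals k → GQ) (artK : Ideals K → GQ)
    (hart : Symbols K k f ζ 𝔪 art artK) (hA : ArtinFactorization K k f 𝔪 art)
    (𝔣 : Ideals K) (h𝔣 : PrimesOver K f 𝔣) (hC : Criterion K f 𝔣) :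
    ∃ H : Sub, H ≤ K ⊔ ℚ⟮ζ⟯ ∧ IsRayClassField K H 𝔣 artK ∧
      (𝔣 ≤ principal K f ∨ Tame K f ∧ 𝔣 = (principal K f).radical → H = K ⊔ ℚ⟮ζ⟯) ∧
      ∀ W' W : ℕ, IsTorsionOrder (H ⊔ k) W' → StarkImQuad ι k (H ⊔ k) 𝔪 art W' →
        IsTorsionOrder H W → StarkCubic ι K H 𝔣 artK W := by
  have hR : RayByNorm K f 𝔣 := by
    rcases hC with h | ⟨hP, h | ⟨hT, rfl⟩⟩
    · exact h
    · exact h.ray hF.deg_K hF.complex hP hF.two_le h𝔣
    · exact rayByNorm hF.deg_K hF.complex hP hF.two_le hT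
  have hO := onto hF.deg_K hF.deg_k hF.two_le hF.prim hart hA h𝔣
  obtain ⟨H, hle, hH⟩ := exists_ray hF.deg_K hF.two_le hF.prim hart.art_K h𝔣 hR
  refine ⟨H, hle, ⟨hH.le, hH.comm, fun σ hσ => ?_, hH.kernel⟩, fun h => ?_,
    fun W' W hW' hS hW => ?_⟩
  · obtain ⟨𝔞, h1, h2⟩ := hO σ hσ
    exact ⟨𝔞, h1, fun x hx => h2 x (hle hx)⟩
  · have h1 : IsRay K (K ⊔ ℚ⟮ζ⟯) 𝔣 artK := by
      refine isRay_of hF.two_le hF.prim hart.art_K h𝔣 hR fun 𝔞 hc h2 => ?_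
      rcases h with h | ⟨hT, rfl⟩
      · exact norm_of_ray hF.deg_K hF.complex h h2
      · exact norm_of_tame hF.deg_K hF.complex hT (coprime_radical.1 hc) h2
    exact le_antisymm hle (ray_le hO h1 hH le_rfl hle)
  · exact stark_sub ι K k hF.deg_K hF.deg_k hF.normal hF.complex f hF.two_le ζ hF.prim 𝔪 art artK
      hart hA 𝔣 h𝔣 H hH.le hle W' hW' hS W hW

end Pool.Agent.J4.H71.CB
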