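import Pool.Agent.K4H33.SK.Stmt

/-! The definitions for ray class fields of complex cubic fields. -/

set_option autoImplicit false

namespace Pool.Agent.J4.H71.CB.St
open NumberField Pool.Agent.K4H33.SK.Stmt
open Pool.Agent.K4H33.SK (Qbar GQ Fixes)

/-- `α` is congruent to `β` modulo `𝔣`. -/
def Cong (K : Sub) (𝔣 : Ideals K) (α β : 𝓞 K) : Prop := α - β ∈ 𝔣

/-- The norm of an integer of `K`. -/
noncomputable def nm (K : Sub) (α : 𝓞 K) : ℤ := Algebra.norm ℤ α

/-- The ideal generated by `α`. -/
noncomputable def gen (K : Sub) (α : 𝓞 K) : Ideals K := Ideal.span {α}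

/-- `α` is positive at the real places of `K`. -/
def Pos (K : Sub) (α : 𝓞 K) : Prop :=
  ∀ w : Qbar →+* ℂ, (∀ x ∈ K, (w x).im = 0) → 0 < (w ((α : K) : Qbar)).re

/-- The ideal `𝔞` is generated by an integer of `K` which is congruent to one modulo `𝔣` and
positive at the real place. -/
def InRay (K : Sub) (𝔣 𝔞 : Ideals K) : Prop :=
  ∃ α : 𝓞 K, Cong K 𝔣 α 1 ∧ Pos K α ∧ 𝔞 = gen K α

/-- `H` is the narrow ray class field of `K` modulo `𝔣`: an abelian extension of `K` such that the
Artin map of the ideals prime to `𝔣` to its Galois group is onto, with kernel the ideals that are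
generated by an integer congruent to one modulo `𝔣` and positive at the real place. -/
structure IsRayClassField (K H : Sub) [NumberField K] (𝔣 : Ideals K) (art : Ideals K → GQ) :
    Prop where
  le : K ≤ H
  comm : ∀ σ τ : GQ, Fixes K σ → Fixes K τ → ∀ x ∈ H, σ (τ x) = τ (σ x)
  onto : ∀ σ : GQ, Fixes K σ → ∃ 𝔞 : Ideals K, Cop K 𝔞 𝔣 ∧ ∀ x ∈ H, art 𝔞 x = σ x
  kernel : ∀ 𝔞 : Ideals K, Cop K 𝔞 𝔣 → ((∀ x ∈ H, art 𝔞 x = x) ↔ InRay K 𝔣 𝔞)

/-- Every ideal prime to `𝔣` whose norm is one modulo `f` is generated by an integer which is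
congruent to one modulo `𝔣` and positive at the real place. -/
def RayByNorm (K : Sub) [NumberField K] (f : ℕ) (𝔣 : Ideals K) : Prop :=
  ∀ 𝔞 : Ideals K, Cop K 𝔞 𝔣 → nrm K 𝔞 ≡ 1 [MOD f] → InRay K 𝔣 𝔞

/-- Every integer of `K` whose norm is one modulo `f` is congruent modulo `𝔣` to a unit of norm
one. -/
def UnitsFill (K : Sub) (f : ℕ) (𝔣 : Ideals K) : Prop :=
  ∀ α : 𝓞 K, (f : ℤ) ∣ nm K α - 1 → ∃ u : 𝓞 K, IsUnit u ∧ nm K u = 1 ∧ Cong K 𝔣 α u

/-- The ideal `𝔞` contains the integer `p`. -/
def Contains (K : Sub) (𝔞 : Ideals K) (p : ℕ) : Prop := (p : 𝓞 K) ∈ 𝔞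

/-- `P` is a prime ideal of `K` above `p`. -/
def Over (K : Sub) (p : ℕ) (P : Ideals K) : Prop := P.IsPrime ∧ Contains K P p

/-- `f` is squarefree, all its prime factors `p` are not congruent to one modulo `3`, all primes of
`K` above them have norm `p`, and there is exactly one such prime if `p ≠ 2`. -/
structure Tame (K : Sub) [NumberField K] (f : ℕ) : Prop where
  sqf : Squarefree f
  mod3 : ∀ p : ℕ, p.Prime → p ∣ f → p % 3 ≠ 1
  norm : ∀ p : ℕ, p.Prime → p ∣ f → ∀ P : Ideals K, Over K p P → nrm K P = p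
  one : ∀ p : ℕ, p.Prime → p ∣ f → p ≠ 2 → ∀ P Q : Ideals K, Over K p P → Over K p Q → P = Q

/-- The product of the prime ideals of `K` above `f`. -/
noncomputable def rad (K : Sub) (f : ℕ) : Ideals K := (principal K f).radical

/-- `K` has class number one. -/
def ClassNumberOne (K : Sub) : Prop := IsPrincipalIdealRing (𝓞 K)

/-- Conditions which put the narrow ray class field modulo `𝔣` into `K(ζ)`: every ideal prime to `𝔣`
whose norm is one modulo `f` is generated by an integer congruent to one modulo `𝔣` and positive at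
the real place; or `K` has class number one, and either every integer of `K` of norm one modulo `f`
is congruent modulo `𝔣` to a unit of norm one, or `f` is as in `Tame` and `𝔣` is the product of the
primes above `f`. -/
def Criterion (K : Sub) [NumberField K] (f : ℕ) (𝔣 : Ideals K) : Prop :=
  RayByNorm K f 𝔣 ∨ ClassNumberOne K ∧ (UnitsFill K f 𝔣 ∨ Tame K f ∧ 𝔣 = rad K f)

/-- The square of an ideal. -/
noncomputable def square (M : Sub) (𝔞 : Ideals M) : Ideals M := 𝔞 * 𝔞

/-- Every prime which is ramified in `M` divides `f`: the other primes are not contained in the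
square of a prime ideal. -/
def RamifiedDivide (M : Sub) (f : ℕ) : Prop :=
  ∀ p : ℕ, p.Prime → ¬ p ∣ f → ∀ Q : Ideals M, Q.IsPrime → ¬ Contains M (square M Q) p

/-- Either `𝔪` is generated by `f` and all primes ramified in `K ⊔ k` divide `f`, or the
factorization of the zeta function of `K` is assumed. -/
def FactorInput (K k : Sub) [NumberField K] [NumberField k] (f : ℕ) (𝔪 : Ideals k)
    (art : Ideals k → GQ) : Prop :=
  (𝔪 = principal k f ∧ RamifiedDivide (K ⊔ k) f) ∨ ArtinFactorization K k f 𝔪 art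

end Pool.Agent.J4.H71.CB.St
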