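import Pool.Agent.J4.H71.CB.Final
import Pool.Agent.J4.H71.CB.Stat
import Pool.Agent.J4.H48.AF.Main

/-! The factorization of the zeta function is proved if `f` is divisible by the ramified primes. -/

set_option autoImplicit false
set_option linter.style.haveILetI false

namespace Pool.Agent.J4.H71.CB
open NumberField Module IntermediateField Pool.Agent.K4H33.SK.Stmt
open Pool.Agent.K4H33.SK (Qbar GQ Fixes IsTorsionOrder)

lemma ramifiedDivide_unram {M : Sub} {f : ℕ} (h : St.RamifiedDivide M f) :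
    Pool.Agent.J4.H48.RQ.Unram M f := fun p hp hpf Q hQ _ hQ2 =>
  h p hp hpf Q hQ (by
    rw [pow_two] at hQ2
    exact hQ2)

theorem factorInput_fac {ι : Qbar →+* ℂ} {K k : Sub} [NumberField K] [NumberField k] {f : ℕ}
    {ζ : Qbar} (hF : Fields ι K k ℚ⟮ζ⟯ f ζ) {𝔪 : Ideals k} {art : Ideals k → GQ}
    {artK : Ideals K → GQ} (hart : Symbols K k f ζ 𝔪 art artK) (hA : St.FactorInput K k f 𝔪 art) :
    ArtinFactorization K k f 𝔪 art := by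
  rcases hA with ⟨rfl, hU⟩ | hA
  · have hart' : Pool.Agent.K4H33.SK.IsArtin k (K ⊔ k) (Ideal.span {(f : 𝓞 k)}) art := by
      have h := hart.art_k.down
      exact ⟨h.fix, fun 𝔟 𝔠 h1 h2 x hx => h.mul 𝔟 𝔠 h1 h2 x ((le_sup_left : K ⊔ k ≤ _) hx),
        fun 𝔭 h1 h2 𝔓 h3 h4 x y hx hy => h.frob 𝔭 h1 h2 𝔓 h3 h4 x y ((le_sup_left : K ⊔ k ≤ _) hx) hy⟩
    exact Pool.Agent.J4.H48.AF.artin_factorization ι K k hF.deg_K hF.deg_k hF.complex hF.normal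
      hF.two_le (ramifiedDivide_unram hU) art hart'
  · exact hA

lemma tame_old {K : Sub} [NumberField K] {f : ℕ} (h : St.Tame K f) : Tame K f :=
  ⟨h.sqf, h.mod3, fun p hp hpf P hP hpP => h.norm p hp hpf P ⟨hP, hpP⟩,
    fun p hp hpf hp2 P Q hP hQ hpP hpQ => h.one p hp hpf hp2 P Q ⟨hP, hpP⟩ ⟨hQ, hpQ⟩⟩

lemma criterion_old {K : Sub} [NumberField K] {f : ℕ} {𝔣 : Ideals K} (h : St.Criterion K f 𝔣) :
    Criterion K f 𝔣 := by
  rcases h with h | ⟨hP, h | ⟨hT, h⟩⟩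
  · exact Or.inl fun 𝔞 hc hn => h 𝔞 hc hn
  · refine Or.inr ⟨hP, Or.inl fun α hα => ?_⟩
    obtain ⟨u, ⟨u', rfl⟩, h1, h2⟩ := h α hα
    exact ⟨u', h1, h2⟩
  · exact Or.inr ⟨hP, Or.inr ⟨tame_old hT, h⟩⟩

/-- **Stark's conjecture for narrow ray class fields inside `K(ζ)`.** -/
theorem stark_ray' (ι : Qbar →+* ℂ) (K k : Sub) [NumberField K] [NumberField k] (f : ℕ) (ζ : Qbar)
    (hF : Fields ι K k ℚ⟮ζ⟯ f ζ) (𝔪 : Ideals k) (art : Ideals k → GQ) (artK : Ideals K → GQ)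
    (hart : Symbols K k f ζ 𝔪 art artK) (hA : St.FactorInput K k f 𝔪 art)
    (𝔣 : Ideals K) (h𝔣 : PrimesOver K f 𝔣) (hC : St.Criterion K f 𝔣) :
    ∃ H : Sub, H ≤ K ⊔ ℚ⟮ζ⟯ ∧ St.IsRayClassField K H 𝔣 artK ∧
      (𝔣 ≤ principal K f ∨ St.Tame K f ∧ 𝔣 = St.rad K f → H = K ⊔ ℚ⟮ζ⟯) ∧
      ∀ W' W : ℕ, IsTorsionOrder (H ⊔ k) W' → StarkImQuad ι k (H ⊔ k) 𝔪 art W' →
        IsTorsionOrder H W → StarkCubic ι K H 𝔣 artK W := by
  obtain ⟨H, h1, h2, h3, h4⟩ := stark_ray ι K k f ζ hF 𝔪 art artK hart (factorInput_fac hF hart hA) 𝔣 h𝔣 (criterion_old hC)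
  refine ⟨H, h1, ⟨h2.le, h2.comm, h2.onto, fun 𝔞 hc => h2.kernel 𝔞 hc⟩, fun h => h3 ?_, h4⟩
  rcases h with h | ⟨hT, h⟩
  · exact Or.inl h
  · exact Or.inr ⟨tame_old hT, h⟩

end Pool.Agent.J4.H71.CB
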